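import Pool.Agent.W353.ST.Defs

/-! Elliptic curves with the Sato–Tate law: definitions. -/

set_option autoImplicit false

namespace Pool.Agent.W353.SE

open NumberField IsDedekindDomain Filter Topology Polynomial
open Pool.Agent.W353.ST (HasMean)
open Pool.Agent.W353.AT (IsFrobeniusElement)

/-- The number of solutions of the affine Weierstrass equation of `V` with coordinates in `R`. -/
noncomputable def affineCount {R : Type} [CommRing R] (V : WeierstrassCurve R) : ℕ :=
  Nat.card {P : R × R // P.2 ^ 2 + V.a₁ * P.1 * P.2 + V.a₃ * P.2 =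
    P.1 ^ 3 + V.a₂ * P.1 ^ 2 + V.a₄ * P.1 + V.a₆}

/-- `a_v = q_v + 1 - #E(k_v)`, `k_v` the residue field of `v` and `q_v` its number of elements; there is
one point at infinity. -/
noncomputable def frobTrace {F : Type} [Field F] [NumberField F] (W : WeierstrassCurve (𝓞 F))
    (v : HeightOneSpectrum (𝓞 F)) : ℤ :=
  (Ideal.absNorm v.asIdeal : ℤ) + 1 - ((affineCount (W.map (Ideal.Quotient.mk v.asIdeal)) : ℤ) + 1)

/-- The integral of `f(2 cos θ)` with respect to the Sato–Tate measure `(2/π) sin² θ dθ` on `[0, π]`. -/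
noncomputable def satoTateIntegral (f : ℝ → ℝ) : ℝ :=
  2 / Real.pi * ∫ θ in (0 : ℝ)..Real.pi, f (2 * Real.cos θ) * Real.sin θ ^ 2

/-- **The Sato–Tate law for the elliptic curve `E` over the number field `F`** with the integral
Weierstrass equation `W`, in the sense of the analytic density: for every continuous function `f` the
mean value of `f(a_v / √q_v)` over the primes `v` of `F` is the integral of `f` with respect to the
Sato–Tate measure. -/
def SatoTate {F : Type} [Field F] [NumberField F] (W : WeierstrassCurve (𝓞 F)) : Prop :=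
  ∀ f : ℝ → ℝ, Continuous f →
    HasMean (fun v => (f ((frobTrace W v : ℝ) / Real.sqrt (Ideal.absNorm v.asIdeal : ℝ)) : ℂ))
      (satoTateIntegral f : ℂ)

section
variable {F : Type} [Field F] [NumberField F]

/-- The polynomials `B v` are the Euler factors of `E ⊗ ρ` at all but finitely many primes `v`:
`B_v(z) = det(1 - a_v z ρ(Frob_v⁻¹) + q_v z² ρ(Frob_v⁻¹)²)`. -/
def IsEulerFactor (W : WeierstrassCurve (𝓞 F)) {n : ℕ}
    (ρ : Representation ℂ Gal(AlgebraicClosure F/F) (Fin n → ℂ))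
    (B : HeightOneSpectrum (𝓞 F) → ℂ[X]) : Prop :=
  ∀ᶠ v in cofinite, ∀ σ : Gal(AlgebraicClosure F/F), IsFrobeniusElement v σ → ∀ z : ℂ,
    (B v).eval z = LinearMap.det (1 - ((frobTrace W v : ℂ) * z) • ρ σ⁻¹ +
      ((Ideal.absNorm v.asIdeal : ℂ) * z ^ 2) • (ρ σ⁻¹) ^ 2)

/-- The Euler product `∏_v B_v(q_v^{-s})⁻¹`. -/
noncomputable def eulerProduct (B : HeightOneSpectrum (𝓞 F) → ℂ[X]) (s : ℂ) : ℂ :=
  ∏' v : HeightOneSpectrum (𝓞 F), ((B v).eval ((Ideal.absNorm v.asIdeal : ℂ) ^ (-s)))⁻¹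

/-- `log |L(3/2 + iτ + ε)| / log (1/ε)` for the Euler product `L`. -/
noncomputable def size (B : HeightOneSpectrum (𝓞 F) → ℂ[X]) (τ ε : ℝ) : ℝ :=
  Real.log ‖eulerProduct B (3 / 2 + τ * Complex.I + ε)‖ / Real.log (1 / ε)

/-- `Λ` is a meromorphic continuation of the Euler product to a neighbourhood of `3/2 + iτ`. -/
def IsContinuation (B : HeightOneSpectrum (𝓞 F) → ℂ[X]) (τ : ℝ) (Λ : ℂ → ℂ) : Prop :=
  MeromorphicAt Λ (3 / 2 + τ * Complex.I) ∧
    ∀ᶠ s in 𝓝 (3 / 2 + τ * Complex.I : ℂ), 3 / 2 < s.re → Λ s = eulerProduct B s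

/-- The quadratic form `∑ c_k c_l dim Hom(ρ_k, ρ_l)`; for `c_k` integral and nonnegative it is the
dimension of the algebra of endomorphisms of `⊕ ρ_k^{c_k}`. -/
noncomputable def gram {κ : Type} [Fintype κ] {n : κ → ℕ}
    (ρ : ∀ k, Representation ℂ Gal(AlgebraicClosure F/F) (Fin (n k) → ℂ)) (c : κ → ℝ) : ℝ :=
  ∑ k, ∑ l, c k * c l * (Module.finrank ℂ ((ρ k).IntertwiningMap (ρ l)) : ℝ)

end

end Pool.Agent.W353.SE
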