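import Pool.Agent.W353.SE.Core
import Pool.Agent.W353.L1.EC
import Pool.Agent.W353.L1.Core

/-! Elliptic curves with the Sato–Tate law: Artin twists. -/

set_option autoImplicit false

namespace Pool.Agent.W353.SE

open Complex Filter Topology NumberField IsDedekindDomain ComplexConjugate Polynomial
  Pool.Agent.W401.Cheb Pool.Agent.W540.BE Pool.Agent.W385.GA
open Pool.Agent.H341R2 (lam lam_tendsto)
open Pool.Agent.W353.ST (vals mem_vals hasMean_iff hasMean_real HasMean finite_chi)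
open Pool.Agent.W353.L1 (tr tr_eq abs_tr_le size_corr zz norm_zz)
open Pool.Agent

section
variable {F : Type} [Field F] [NumberField F]

theorem nm_pos' (v : HeightOneSpectrum (𝓞 F)) : (0 : ℝ) < nm F v := by
  have := two_le_nm v
  exact_mod_cast (by omega : 0 < nm F v)

/-- the Frobenius eigenvalues of an elliptic curve -/
theorem ec_alpha (W : WeierstrassCurve (𝓞 F)) (hΔ : W.Δ ≠ 0) :
    ∃ α : HeightOneSpectrum (𝓞 F) → Fin 2 → ℂ,
      ∀ᶠ v in cofinite, (∀ j, ‖α v j‖ = (nm F v : ℝ) ^ (1 / 2 : ℝ)) ∧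
        α v 0 + α v 1 = (frobTrace W v : ℂ) ∧ α v 0 * α v 1 = ((nm F v : ℕ) : ℂ) := by
  have h6 : (6 : 𝓞 F) ≠ 0 := by norm_num
  have hgood : ∀ᶠ v : HeightOneSpectrum (𝓞 F) in cofinite,
      (6 : 𝓞 F) ∉ v.asIdeal ∧ W.Δ ∉ v.asIdeal := by
    rw [Filter.eventually_cofinite]
    refine ((finite_mem_prime h6).union (finite_mem_prime hΔ)).subset fun v hv => ?_
    rw [Set.mem_ofPred_eq, not_and_or, not_not, not_not] at hv
    exact hv
  have hex : ∀ v : HeightOneSpectrum (𝓞 F), ∃ α : Fin 2 → ℂ,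
      ((6 : 𝓞 F) ∉ v.asIdeal ∧ W.Δ ∉ v.asIdeal) →
        (∀ j, ‖α j‖ = (nm F v : ℝ) ^ (1 / 2 : ℝ)) ∧ α 0 + α 1 = (frobTrace W v : ℂ) ∧
          α 0 * α 1 = ((nm F v : ℕ) : ℂ) := by
    intro v
    by_cases h : (6 : 𝓞 F) ∉ v.asIdeal ∧ W.Δ ∉ v.asIdeal
    · obtain ⟨α, h1, h2, h3⟩ := exists_roots (nm_pos' v) (hasse_v W v h.1 h.2)
      refine ⟨α, fun _ => ⟨h1, ?_, ?_⟩⟩
      · rw [h2]
        simp
        rfl
      · rw [h3]; simp
    · exact ⟨0, fun h' => absurd h' h⟩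
  choose α hα using hex
  exact ⟨α, hgood.mono fun v hv => hα v hv⟩

theorem re_eq_of_real {z : ℂ} {m : ℤ} (h : z = (m : ℂ)) : z.im = 0 ∧ z.re = m := by
  rw [h]
  simp

/-- bounded off a finite set implies bounded -/
theorem bd_of_cofinite {f : HeightOneSpectrum (𝓞 F) → ℝ} {B : ℝ}
    (h : ∀ᶠ v in cofinite, |f v| ≤ B) : ∃ B' : ℝ, ∀ v, |f v| ≤ B' := by
  classical
  rw [Filter.eventually_cofinite] at h
  refine ⟨|B| + ∑ v ∈ h.toFinset, |f v|, fun v => ?_⟩
  have h0 : 0 ≤ ∑ v ∈ h.toFinset, |f v| := Finset.sum_nonneg fun _ _ => abs_nonneg _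
  by_cases hv : |f v| ≤ B
  · linarith [le_abs_self B]
  · have h1 : |f v| ≤ ∑ v ∈ h.toFinset, |f v| :=
      Finset.single_le_sum (f := fun v => |f v|) (fun _ _ => abs_nonneg _)
        (h.mem_toFinset.2 hv)
    linarith [abs_nonneg B]

/-- mean values do not depend on finitely many primes -/
theorem mean_congr {f g : HeightOneSpectrum (𝓞 F) → ℝ} {B B' : ℝ} (hf : ∀ v, |f v| ≤ B)
    (hg : ∀ v, |g v| ≤ B') (h : ∀ᶠ v in cofinite, f v = g v) {m : ℝ}
    (hm : Tendsto (fun ε : ℝ => EP (nm F) ε f / lam ε) (𝓝[>] 0) (𝓝 m)) :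
    Tendsto (fun ε : ℝ => EP (nm F) ε g / lam ε) (𝓝[>] 0) (𝓝 m) := by
  classical
  rw [Filter.eventually_cofinite] at h
  have h1 : Tendsto (fun ε : ℝ => (EP (nm F) ε fun v => g v + (-1) * f v) / lam ε) (𝓝[>] 0)
      (𝓝 0) := by
    refine squeeze_zero_norm' (a := fun ε => (h.toFinset.card * (B' + B)) / lam ε) ?_
      (tendsto_const_nhds.div_atTop lam_tendsto)
    filter_upwards [self_mem_nhdsWithin, lam_tendsto.eventually_gt_atTop 0] with ε hε hl
    rw [norm_div, Real.norm_eq_abs, Real.norm_eq_abs, abs_of_pos hl]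
    refine div_le_div_of_nonneg_right ?_ hl.le
    refine EP_finsupp normSys h.toFinset _ (fun v hv => ?_) _ (fun v => ?_) hε
    · rw [Set.Finite.mem_toFinset, Set.mem_ofPred_eq, not_not] at hv
      rw [hv]
      ring
    · refine (abs_add_le _ _).trans (add_le_add (hg v) ?_)
      rw [abs_mul, abs_neg, abs_one, one_mul]
      exact hf v
  have h2 := hm.add h1
  rw [add_zero] at h2
  refine h2.congr' ?_
  filter_upwards [self_mem_nhdsWithin] with ε hε
  have hf' : ∀ v, |(-1) * f v| ≤ B := fun v => by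
    rw [abs_mul, abs_neg, abs_one, one_mul]
    exact hf v
  rw [EP_add normSys hε hg hf', EP_const_mul]
  ring

/-- the Sato–Tate law for the normalised traces -/
theorem law_tr {W : WeierstrassCurve (𝓞 F)} (hST : SatoTate W)
    {α : HeightOneSpectrum (𝓞 F) → Fin 2 → ℂ}
    (hα : ∀ᶠ v in cofinite, (∀ j, ‖α v j‖ = (nm F v : ℝ) ^ (1 / 2 : ℝ)) ∧
        α v 0 + α v 1 = (frobTrace W v : ℂ) ∧ α v 0 * α v 1 = ((nm F v : ℕ) : ℂ))
    (f : ℝ → ℝ) (hf : Continuous f) :
    Tendsto (fun ε : ℝ => (EP (nm F) ε fun v => f (tr (1 / 2) α v)) / lam ε) (𝓝[>] 0)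
      (𝓝 (satoTateIntegral f)) := by
  have heq : ∀ᶠ v in cofinite,
      (frobTrace W v : ℝ) / Real.sqrt (Ideal.absNorm v.asIdeal : ℝ) = tr (1 / 2) α v := by
    filter_upwards [hα] with v hv
    have h1 : (∑ j, α v j).im = 0 := by
      rw [Fin.sum_univ_two, hv.2.1]
      simp
    have h2 : (∑ j, α v j).re = frobTrace W v := by
      rw [Fin.sum_univ_two, hv.2.1]
      simp
    unfold tr
    rw [if_pos ⟨hv.1, h1⟩, h2, Real.sqrt_eq_rpow, Real.rpow_neg (Nat.cast_nonneg _),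
      div_eq_mul_inv]
    rfl
  obtain ⟨C, hC⟩ : ∃ C : ℝ, ∀ t : ℝ, |t| ≤ 2 → |f t| ≤ C := by
    obtain ⟨C, hC⟩ := (isCompact_Icc (a := (-2 : ℝ)) (b := 2)).exists_bound_of_continuousOn
      hf.continuousOn
    exact ⟨C, fun t ht => hC t (abs_le.1 ht)⟩
  have hb : ∀ v, |f (tr (1 / 2) α v)| ≤ C := fun v => hC _ (by
    have := abs_tr_le (1 / 2) α v
    simpa using this)
  obtain ⟨C', hC'⟩ := bd_of_cofinite (f := fun v : HeightOneSpectrum (𝓞 F) =>
    f ((frobTrace W v : ℝ) / Real.sqrt (Ideal.absNorm v.asIdeal : ℝ))) (B := C) (by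
      filter_upwards [heq] with v hv
      rw [hv]
      exact hb v)
  have h1 := hasMean_real hC' (hST f hf)
  refine mean_congr hC' hb ?_ h1
  filter_upwards [heq] with v hv
  rw [hv]

section
variable {κ : Type} [Fintype κ] (A : κ → ArtinRep F) (τ : ℝ) (c : κ → ℝ)
  (frob : HeightOneSpectrum (𝓞 F) → GK F)

/-- the combined twisting function -/
noncomputable def VV (v : HeightOneSpectrum (𝓞 F)) : ℂ := ∑ k, (c k : ℂ) * vv frob (A k) τ v

theorem VV_norm (v : HeightOneSpectrum (𝓞 F)) :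
    ‖VV A τ c frob v‖ = ‖∑ k, (c k : ℂ) * conj ((A k).χ (frob v)⁻¹)‖ := by
  have h1 : VV A τ c frob v = conj (((nm F v : ℕ) : ℂ) ^ (-(τ * I))) *
      ∑ k, (c k : ℂ) * conj ((A k).χ (frob v)⁻¹) := by
    unfold VV vv
    rw [Finset.mul_sum]
    refine Finset.sum_congr rfl fun k _ => ?_
    rw [map_mul]
    ring
  rw [h1, norm_mul, Complex.norm_conj, norm_cpow_I (nm_pos v), one_mul]

theorem VV_fin : ∃ Y : Finset ℝ, ∀ v, ‖VV A τ c frob v‖ ∈ Y := by
  classical
  have h1 : (Set.range fun g : GK F => fun k => (A k).χ g).Finite := by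
    refine (Set.Finite.pi' fun k => finite_chi (A k)).subset ?_
    rintro _ ⟨g, rfl⟩ k
    exact ⟨g, rfl⟩
  have h2 : (Set.range fun g : GK F => ‖∑ k, (c k : ℂ) * conj ((A k).χ g)‖).Finite := by
    refine (h1.image fun z : κ → ℂ => ‖∑ k, (c k : ℂ) * conj (z k)‖).subset ?_
    rintro _ ⟨g, rfl⟩
    exact ⟨_, ⟨g, rfl⟩, rfl⟩
  refine ⟨h2.toFinset, fun v => ?_⟩
  rw [Set.Finite.mem_toFinset, VV_norm]
  exact ⟨_, rfl⟩

theorem VV_bd (v : HeightOneSpectrum (𝓞 F)) :
    ‖VV A τ c frob v‖ ≤ ∑ k, |c k| * (A k).n := by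
  unfold VV
  refine (norm_sum_le _ _).trans (Finset.sum_le_sum fun k _ => ?_)
  rw [norm_mul, Complex.norm_real, Real.norm_eq_abs]
  exact mul_le_mul_of_nonneg_left (norm_vv_le _ _ _) (abs_nonneg _)

/-- the quadratic form -/
noncomputable def gr : ℝ := ∑ k, ∑ l, c k * c l * (homDim (A k) (A l) : ℝ)

theorem VV_gram (hfrob : ∀ v, IsFrob v (frob v)) :
    Tendsto (fun ε : ℝ => (EP (nm F) ε fun v =>
      (VV A τ c frob v * conj (VV A τ c frob v)).re) / lam ε) (𝓝[>] 0) (𝓝 (gr A c)) := by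
  have h1 : Tendsto (fun ε : ℝ => ∑ k, ∑ l, c k * c l *
      ((EP (nm F) ε fun v => (vv frob (A k) τ v * conj (vv frob (A l) τ v)).re) / lam ε))
      (𝓝[>] 0) (𝓝 (gr A c)) := by
    unfold gr
    refine tendsto_finsetSum _ fun k _ => tendsto_finsetSum _ fun l _ => ?_
    have h2 := gram_lim hfrob (A k) (A l) τ τ
    rw [if_pos rfl, homDim_symm] at h2
    exact h2.const_mul _
  refine h1.congr' ?_
  filter_upwards [self_mem_nhdsWithin] with ε hε
  have hε' : (0 : ℝ) < ε := hε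
  have hexp : (fun v => (VV A τ c frob v * conj (VV A τ c frob v)).re) = fun v =>
      ∑ k, ∑ l, c k * c l * (vv frob (A k) τ v * conj (vv frob (A l) τ v)).re := by
    funext v
    unfold VV
    rw [map_sum, Finset.sum_mul_sum, Complex.re_sum]
    refine Finset.sum_congr rfl fun k _ => ?_
    rw [Complex.re_sum]
    refine Finset.sum_congr rfl fun l _ => ?_
    rw [map_mul, Complex.conj_ofReal]
    have : (c k : ℂ) * vv frob (A k) τ v * ((c l : ℂ) * conj (vv frob (A l) τ v)) =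
        ((c k * c l : ℝ) : ℂ) * (vv frob (A k) τ v * conj (vv frob (A l) τ v)) := by
      push_cast
      ring
    rw [this, Complex.re_ofReal_mul]
  have hb : ∀ k l v, |(vv frob (A k) τ v * conj (vv frob (A l) τ v)).re| ≤ (A k).n * (A l).n := by
    intro k l v
    refine (Complex.abs_re_le_norm _).trans ?_
    rw [norm_mul, Complex.norm_conj]
    exact mul_le_mul (norm_vv_le _ _ _) (norm_vv_le _ _ _) (norm_nonneg _) (Nat.cast_nonneg _)
  have hb' : ∀ k l v, |c k * c l * (vv frob (A k) τ v * conj (vv frob (A l) τ v)).re| ≤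
      |c k * c l| * ((A k).n * (A l).n) := fun k l v => by
    rw [abs_mul]
    exact mul_le_mul_of_nonneg_left (hb k l v) (abs_nonneg _)
  have hb2 : ∀ k v, |∑ l, c k * c l * (vv frob (A k) τ v * conj (vv frob (A l) τ v)).re| ≤
      ∑ l, |c k * c l| * ((A k).n * (A l).n) := fun k v =>
    (Finset.abs_sum_le_sum_abs _ _).trans (Finset.sum_le_sum fun l _ => hb' k l v)
  rw [hexp, EP_sum normSys hε' Finset.univ _ _ (fun k _ => hb2 k), Finset.sum_div]
  refine Finset.sum_congr rfl fun k _ => ?_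
  rw [EP_sum normSys hε' Finset.univ _ _ (fun l _ => hb' k l), Finset.sum_div]
  refine Finset.sum_congr rfl fun l _ => ?_
  rw [EP_const_mul, mul_div_assoc]

end

/-- **The main theorem on the sizes.** -/
theorem main {W : WeierstrassCurve (𝓞 F)} (hΔ : W.Δ ≠ 0) (hST : SatoTate W)
    {κ : Type} [Fintype κ] (A : κ → ArtinRep F) (τ : ℝ)
    (B : κ → HeightOneSpectrum (𝓞 F) → ℂ[X]) (hB : ∀ k, IsEulerFactor W (A k).ρ (B k))
    (hB0 : ∀ k, ∀ v,
      (B k v).eval ((Ideal.absNorm v.asIdeal : ℂ) ^ (-(3 / 2 + τ * I : ℂ))) ≠ 0) :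
    (∀ k, ∀ᶠ ε : ℝ in 𝓝[>] 0, eulerProduct (B k) (3 / 2 + τ * I + ε) ≠ 0) ∧
    ∀ c : κ → ℝ, 0 < gr A c → ∃ θ : ℝ, θ < 1 ∧ ∀ᶠ ε : ℝ in 𝓝[>] 0,
      |∑ k, c k * size (B k) τ ε| ≤ θ * Real.sqrt (gr A c) := by
  classical
  obtain ⟨α, hα⟩ := ec_alpha W hΔ
  choose frob hfrob using exists_isFrob (F := F)
  have hs : ∀ x : ℝ, (((1 / 2 : ℝ) : ℂ) + 1 + x * I) = 3 / 2 + x * I := by
    intro x
    push_cast
    ring
  have hreal : ∀ᶠ v in cofinite, (∑ j, α v j).im = 0 := by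
    filter_upwards [hα] with v hv
    rw [Fin.sum_univ_two, hv.2.1]
    simp
  have hcorr : ∀ k, (∀ᶠ ε : ℝ in 𝓝[>] 0, eulerProduct (B k) (3 / 2 + τ * I + ε) ≠ 0) ∧
      Tendsto (fun ε : ℝ => (EP (nm F) ε fun v => ((tr (1 / 2) α v : ℂ) *
        ((A k).ρ.character (frob v)⁻¹ * zz τ v)).re) / lam ε - size (B k) τ ε) (𝓝[>] 0)
        (𝓝 0) := by
    intro k
    obtain ⟨U, hU1, hU2, hU⟩ := exists_common {A k}
    have := finite_quot hU2
    have h4 := size_corr (1 / 2) α (hα.mono fun v hv => hv.1) hreal U (A k).ρ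
      (hU (A k) (by simp)) τ (B k) (by
        filter_upwards [hα, hB k] with v h1 h2
        intro σ hσ z
        rw [det_two, h1.2.1, h1.2.2]
        exact h2 σ hσ z) (by
        intro v
        rw [hs]
        exact hB0 k v) (eulerProduct (B k)) (fun s _ => rfl) frob hfrob
    simp only [hs] at h4
    exact h4
  refine ⟨fun k => (hcorr k).1, fun c hc => ?_⟩
  obtain ⟨Y, hY⟩ := VV_fin A τ c frob
  have hT : ∀ v, |tr (1 / 2) α v| ≤ 2 := fun v => by
    have := abs_tr_le (1 / 2) α v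
    simpa using this
  obtain ⟨θ, hθ, hev⟩ := strictV hT (law_tr hST hα) Y hY (VV_bd A τ c frob) hc
    (VV_gram A τ c frob hfrob)
  have hg0 : 0 < Real.sqrt (gr A c) := Real.sqrt_pos.2 hc
  refine ⟨(1 + θ) / 2, by linarith, ?_⟩
  have hlim : Tendsto (fun ε : ℝ => (EP (nm F) ε fun v => ((tr (1 / 2) α v : ℂ) *
      conj (VV A τ c frob v)).re) / lam ε - ∑ k, c k * size (B k) τ ε) (𝓝[>] 0) (𝓝 0) := by
    have h5 : Tendsto (fun ε : ℝ => ∑ k, c k * ((EP (nm F) ε fun v => ((tr (1 / 2) α v : ℂ) *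
        ((A k).ρ.character (frob v)⁻¹ * zz τ v)).re) / lam ε - size (B k) τ ε)) (𝓝[>] 0)
        (𝓝 (∑ k, c k * 0)) := tendsto_finsetSum _ fun k _ => (hcorr k).2.const_mul (c k)
    simp only [mul_zero, Finset.sum_const_zero] at h5
    refine h5.congr' ?_
    filter_upwards [self_mem_nhdsWithin] with ε hε
    have hε' : (0 : ℝ) < ε := hε
    have hexp : (fun v => ((tr (1 / 2) α v : ℂ) * conj (VV A τ c frob v)).re) = fun v =>
        ∑ k, c k * ((tr (1 / 2) α v : ℂ) * ((A k).ρ.character (frob v)⁻¹ * zz τ v)).re := by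
      funext v
      unfold VV
      rw [map_sum, Finset.mul_sum, Complex.re_sum]
      refine Finset.sum_congr rfl fun k _ => ?_
      rw [map_mul, Complex.conj_ofReal]
      have : (tr (1 / 2) α v : ℂ) * ((c k : ℂ) * conj (vv frob (A k) τ v)) =
          (c k : ℂ) * ((tr (1 / 2) α v : ℂ) * ((A k).ρ.character (frob v)⁻¹ * zz τ v)) := by
        unfold vv zz ArtinRep.χ
        rw [Complex.conj_conj]
        ring
      rw [this, Complex.re_ofReal_mul]
    have hb : ∀ k v, |((tr (1 / 2) α v : ℂ) * ((A k).ρ.character (frob v)⁻¹ * zz τ v)).re| ≤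
        2 * (A k).n := by
      intro k v
      refine (Complex.abs_re_le_norm _).trans ?_
      rw [norm_mul, norm_mul, norm_zz, mul_one, Complex.norm_real, Real.norm_eq_abs]
      exact mul_le_mul (hT v) (norm_chi_le (A k) _) (norm_nonneg _) (by norm_num)
    have hb' : ∀ k v, |c k * ((tr (1 / 2) α v : ℂ) *
        ((A k).ρ.character (frob v)⁻¹ * zz τ v)).re| ≤ |c k| * (2 * (A k).n) := fun k v => by
      rw [abs_mul]
      exact mul_le_mul_of_nonneg_left (hb k v) (abs_nonneg _)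
    rw [hexp, EP_sum normSys hε' Finset.univ _ _ (fun k _ => hb' k), Finset.sum_div,
      ← Finset.sum_sub_distrib]
    refine Finset.sum_congr rfl fun k _ => ?_
    rw [EP_const_mul]
    ring
  have h6 := hlim.abs
  rw [abs_zero] at h6
  have hpos : 0 < (1 - θ) / 2 * Real.sqrt (gr A c) := mul_pos (by linarith) hg0
  filter_upwards [hev, h6.eventually_lt_const hpos] with ε e1 e2
  have e3 := abs_sub_abs_le_abs_sub (∑ k, c k * size (B k) τ ε)
    ((EP (nm F) ε fun v => ((tr (1 / 2) α v : ℂ) * conj (VV A τ c frob v)).re) / lam ε)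
  rw [abs_sub_comm] at e3
  have e4 : (1 + θ) / 2 * Real.sqrt (gr A c) =
      θ * Real.sqrt (gr A c) + (1 - θ) / 2 * Real.sqrt (gr A c) := by ring
  rw [e4]
  linarith

end

end Pool.Agent.W353.SE
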