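import Pool.Agent.W353.SE.SR
import Pool.Agent.W353.SE.Twist
import Pool.Agent.W353.NF.EC

/-! Base change of elliptic curves with the Sato–Tate law. -/

set_option autoImplicit false

namespace Pool.Agent.W353.SE

open Complex Filter Topology NumberField IsDedekindDomain ComplexConjugate Asymptotics
  Pool.Agent.W401.Cheb Pool.Agent.W540.BE Pool.Agent.W353.L1 Pool.Agent.W353.NF
open Pool.Agent.W353.TP (HX sysH E_H bdd_isLittleO lam0_sub LL LL_tendsto)
open Pool.Agent.W353.AB (Sy syE tE tEH tE_ker norm_tE)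
open Pool.Agent.H921R2.TatePole (kerPrime C0)
open Pool.Agent.H341R2 (lam lam_tendsto sysK)
open Pool.Agent.H341R2.EC (IsMinAt trc count_good csumv twist)
open Pool.Agent.H341R2 (chi)

section
variable {K : Type} [Field K] [NumberField K]

/-- sizes as averages over the primes of `K` -/
theorem szh_lim {T : HX K → ℝ} {Ψ : HeightOneSpectrum (𝓞 K) → ℝ} {X : ℝ → ℝ}
    (hS : SzH T Ψ X) {g : HeightOneSpectrum (𝓞 K) → ℝ} {B : ℝ} (hg : ∀ v, |g v| ≤ B)
    (h : ∀ x, T x * Ψ (vx x) = g (vx x)) :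
    Tendsto (fun ε : ℝ => EP (nm K) ε g / lam ε - X ε) (𝓝[>] 0) (𝓝 0) := by
  have o1 : (fun ε => (sysK K).E ε g - (sysH K).E ε (fun x => T x * Ψ (vx x))) =o[𝓝[>] 0] LL := by
    refine bdd_isLittleO ⟨B * Module.finrank ℚ K * C0, ?_⟩
    filter_upwards [self_mem_nhdsWithin] with ε hε
    have h1 := E_H hg hε
    have h2 : (fun x : HX K => g (kerPrime x.1 x.2).1.1) = fun x => T x * Ψ (vx x) := by
      funext x
      rw [h x]
      rfl
    rw [h2] at h1
    exact h1
  unfold SzH at hS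
  have t1 := (o1.sub hS).tendsto_div_nhds_zero
  have t2 := lam0_sub.tendsto_div_nhds_zero
  have t3 : Tendsto (fun ε : ℝ => (EP (nm K) ε g / lam ε) * ((lam ε - LL ε) / LL ε)) (𝓝[>] 0)
      (𝓝 0) := by
    have t4 := t2.abs.const_mul (B * 2)
    rw [abs_zero, mul_zero] at t4
    refine squeeze_zero_norm' ?_ t4
    filter_upwards [(EP_one K).eventually_lt_const (by norm_num : (1 : ℝ) < 2),
      self_mem_nhdsWithin, lam_tendsto.eventually_gt_atTop 0] with ε e1 e2 e3
    have hε : (0 : ℝ) < ε := e2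
    have hB : 0 ≤ B := (abs_nonneg _).trans (hg (vx0 K))
    rw [Real.norm_eq_abs, abs_mul]
    refine mul_le_mul_of_nonneg_right ?_ (abs_nonneg _)
    rw [abs_div, abs_of_pos e3, div_le_iff₀ e3]
    have e4 := EP_abs_le (F := K) (φ := g) (ψ := fun _ => B * 1) (B := B)
      (fun v => by rw [mul_one, abs_of_nonneg hB]) (fun v => by rw [mul_one]; exact hg v) hε
    rw [EP_const_mul] at e4
    rw [div_lt_iff₀ e3] at e1
    calc |EP (nm K) ε g| ≤ B * EP (nm K) ε fun _ => 1 := e4
      _ ≤ B * (2 * lam ε) := mul_le_mul_of_nonneg_left e1.le hB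
      _ = B * 2 * lam ε := by ring
  have t5 := t1.sub t3
  rw [sub_zero] at t5
  refine t5.congr' ?_
  filter_upwards [LL_tendsto.eventually_gt_atTop 0, lam_tendsto.eventually_gt_atTop 0]
    with ε e1 e2
  have e3 : EP (nm K) ε g = (sysK K).E ε g := rfl
  rw [e3]
  have h1 := e1.ne'
  have h2 := e2.ne'
  field_simp
  ring

/-- `1` for `τ = 0` and `1/2` for `τ ≠ 0` -/
noncomputable def wt (τ : ℝ) : ℝ := by
  classical
  exact if τ = 0 then 1 else 1 / 2

theorem wt_pos (τ : ℝ) : 0 < wt τ := by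
  classical
  unfold wt
  split_ifs <;> norm_num

theorem mf_two : Mf (fun x => x ^ 2) = 1 / 2 := by
  have := mfcos 0
  rw [mf_zero] at this
  rw [this]
  norm_num

section
variable (U : Subgroup (GK K)) [U.Normal] (hU : IsOpen (U : Set (GK K))) [Finite (GK K ⧸ U)]
  (ψ : GK K → ℝ) (hψU : ∀ σ, ∀ u ∈ U, ψ (σ * u) = ψ σ) (hc : ∀ σ ρ, ψ (ρ * σ * ρ⁻¹) = ψ σ)
  (hi : ∀ σ, ψ σ⁻¹ = ψ σ) (σ : HeightOneSpectrum (𝓞 K) → GK K) (hσ : ∀ v, IsFrob v (σ v))

include hU hψU hc hi hσ in
/-- moments off the real axis -/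
theorem moment_ne {τ : ℝ} (hτ : τ ≠ 0) (n : ℕ) :
    Tendsto (fun ε : ℝ => (EP (nm K) ε fun v => (ψ (σ v) * cz τ v) ^ n) / lam ε) (𝓝[>] 0)
      (𝓝 (avR U (fun q => ψ q.out ^ n) * Mf fun x => x ^ n)) := by
  set A := toCF U (fun g => ψ g ^ n) (fun g u hu => by rw [hψU g u hu])
    (fun g ρ => by rw [hc]) (fun g => by rw [hi]) with hA
  have h1 := mono_lim U hU (fun q => ψ q.out ^ n) (fun _ => 1)
    (fun a x => by
      have := A.cls a x
      have h2 : ∀ q, A.f q = ((ψ q.out ^ n : ℝ) : ℂ) := fun q => rfl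
      rw [h2, h2] at this
      exact_mod_cast this) (fun _ _ => rfl)
    (fun q => by
      have := A.herm q
      have h2 : ∀ q, A.f q = ((ψ q.out ^ n : ℝ) : ℂ) := fun q => rfl
      rw [h2, h2, Complex.conj_ofReal] at this
      exact_mod_cast this) (fun _ => (map_one _).symm) (fun _ => norm_one) σ hσ hτ n
  refine h1.congr fun ε => ?_
  congr 2
  funext v
  have h3 := toCF_mk U (fun g => ψ g ^ n) (fun g u hu => by rw [hψU g u hu])
    (fun g ρ => by rw [hc]) (fun g => by rw [hi]) (σ v)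
  have h4 : (toCF U (fun g => ψ g ^ n) (fun g u hu => by rw [hψU g u hu])
    (fun g ρ => by rw [hc]) (fun g => by rw [hi])).f (QuotientGroup.mk (σ v)) =
      ((ψ (QuotientGroup.mk (σ v) : GK K ⧸ U).out ^ n : ℝ) : ℂ) := rfl
  rw [h4] at h3
  have h5 : ψ (QuotientGroup.mk (σ v) : GK K ⧸ U).out ^ n = ψ (σ v) ^ n := by exact_mod_cast h3
  rw [h5, one_mul, mul_pow]
  rfl

include hψU in
/-- a class function with finitely many values -/
theorem fin_val : ∃ Y : Finset ℝ, ∀ g, ψ g ∈ Y := by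
  classical
  let _ : Fintype (GK K ⧸ U) := Fintype.ofFinite _
  refine ⟨Finset.univ.image fun q : GK K ⧸ U => ψ q.out, fun g => ?_⟩
  rw [Finset.mem_image]
  refine ⟨QuotientGroup.mk g, Finset.mem_univ _, ?_⟩
  have h2 : (QuotientGroup.mk (QuotientGroup.mk g : GK K ⧸ U).out : GK K ⧸ U) =
      QuotientGroup.mk g := QuotientGroup.out_eq' _
  rw [QuotientGroup.eq] at h2
  have h3 := hψU (QuotientGroup.mk g : GK K ⧸ U).out _ h2
  rw [mul_inv_cancel_left] at h3
  exact h3.symm

include hU hψU hc hi in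
/-- **Sizes given by a class function.** -/
theorem base_core {P Q : 𝓞 K}
    (hlaw : ∀ f : ℝ → ℝ, Continuous f →
      Tendsto (fun ε : ℝ => (EP (nm K) ε fun v => f (tE P Q v).re) / lam ε) (𝓝[>] 0)
        (𝓝 (satoTateIntegral f))) (hσ : ∀ v, IsFrob v (σ v)) (τ : ℝ) (X : ℝ → ℝ)
    (hX : SzH (TT (syE P Q)) (fun v => ψ (σ v) * cz τ v) X)
    (hpos : 0 < avR U fun q => ψ q.out ^ 2) :
    ∃ θ : ℝ, θ < 1 ∧ ∀ᶠ ε : ℝ in 𝓝[>] 0,
      |X ε| ≤ θ * Real.sqrt (wt τ * avR U fun q => ψ q.out ^ 2) := by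
  classical
  set M₂ : ℝ := avR U fun q => ψ q.out ^ 2 with hM₂
  set T : HeightOneSpectrum (𝓞 K) → ℝ := fun v => (tE P Q v).re with hTdef
  have hT : ∀ v, |T v| ≤ 2 := fun v => (Complex.abs_re_le_norm _).trans (norm_tE P Q v)
  obtain ⟨Y, hY⟩ := fin_val U ψ hψU
  set b : ℝ := ∑ y ∈ Y, |y| with hb
  have hψb : ∀ g, |ψ g| ≤ b := fun g =>
    Finset.single_le_sum (f := fun y => |y|) (fun y _ => abs_nonneg y) (hY g)
  have hb0 : 0 ≤ b := (abs_nonneg _).trans (hψb 1)
  have hlim : Tendsto (fun ε : ℝ => EP (nm K) ε (fun v => T v * (ψ (σ v) * cz τ v)) / lam ε - X ε)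
      (𝓝[>] 0) (𝓝 0) := by
    refine szh_lim hX (B := 2 * (b * 1)) (fun v => ?_) fun x => ?_
    · rw [abs_mul, abs_mul]
      exact mul_le_mul (hT v) (mul_le_mul (hψb _) (abs_cz _ _) (abs_nonneg _) hb0)
        (by positivity) (by norm_num)
    · have h1 : TT (syE P Q) x = T (vx x) := by
        have h2 : TT (syE P Q) x = ∑ _j ∈ ({()} : Finset Unit), (tEH P Q x).re := rfl
        have h3 := tE_ker (RingHom.id (𝓞 K)) P Q x.1 x.2
        rw [RingHom.comp_id] at h3
        rw [h2, Finset.sum_singleton, hTdef]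
        simp only
        have h4 : tE P Q (vx x) = tEH P Q x := h3
        rw [h4]
      rw [h1]
  set s : ℝ := Real.sqrt (wt τ * M₂) with hs
  have hwM : 0 < wt τ * M₂ := mul_pos (wt_pos τ) hpos
  have hs0 : 0 < s := Real.sqrt_pos.2 hwM
  have hssq : s ^ 2 = wt τ * M₂ := Real.sq_sqrt hwM.le
  obtain ⟨θ, hθ, hev⟩ : ∃ θ : ℝ, θ < 1 ∧ ∀ᶠ ε : ℝ in 𝓝[>] 0,
      |EP (nm K) ε (fun v => T v * (ψ (σ v) * cz τ v)) / lam ε| ≤ θ * s := by
    by_cases hτ : τ = 0
    · have hcz : ∀ v : HeightOneSpectrum (𝓞 K), cz τ v = 1 := by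
        intro v
        rw [hτ]
        unfold cz zz
        simp
      have hw : wt τ = 1 := by
        unfold wt
        rw [if_pos hτ]
      have hm := real_mean U hU (fun g => ψ g ^ 2) (fun g u hu => by rw [hψU g u hu])
        (fun g ρ => by rw [hc]) (fun g => by rw [hi]) σ hσ 0
      have hk : kap 0 = 1 := by
        unfold kap
        rw [if_pos rfl]
      rw [hk, one_mul] at hm
      have h1 := strictV hT hlaw (V := fun v => ((ψ (σ v) : ℝ) : ℂ)) (Y.image fun y => |y|)
        (fun v => by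
          rw [Finset.mem_image]
          exact ⟨_, hY _, by rw [Complex.norm_real, Real.norm_eq_abs]⟩)
        (b := b) (fun v => by rw [Complex.norm_real, Real.norm_eq_abs]; exact hψb _)
        (g := M₂) hpos (by
          have e1 : (avR U fun q => |ψ q.out ^ 2|) = M₂ := by
            rw [hM₂]
            congr 1
            funext q
            exact abs_of_nonneg (sq_nonneg _)
          rw [e1] at hm
          refine hm.congr fun ε => ?_
          congr 2
          funext v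
          have e2 : cz 0 v = 1 := by
            have := hcz v
            rwa [hτ] at this
          rw [e2, mul_one, abs_of_nonneg (sq_nonneg _), Complex.conj_ofReal,
            ← Complex.ofReal_mul, Complex.ofReal_re]
          ring)
      obtain ⟨c, hc1, hc2⟩ := h1
      refine ⟨c, hc1, ?_⟩
      rw [hs, hw, one_mul]
      filter_upwards [hc2] with ε hε
      refine le_trans (le_of_eq ?_) hε
      congr 3
      funext v
      rw [hcz, mul_one, Complex.conj_ofReal, ← Complex.ofReal_mul, Complex.ofReal_re]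
    · have hw : wt τ = 1 / 2 := by
        unfold wt
        rw [if_neg hτ]
      set φ : GK K → ℝ := fun g => ψ g / s with hφ
      have hφU : ∀ g, ∀ u ∈ U, φ (g * u) = φ g := fun g u hu => by
        rw [hφ]
        simp only
        rw [hψU g u hu]
      have hφc : ∀ g ρ, φ (ρ * g * ρ⁻¹) = φ g := fun g ρ => by
        rw [hφ]
        simp only
        rw [hc]
      have hφi : ∀ g, φ g⁻¹ = φ g := fun g => by
        rw [hφ]
        simp only
        rw [hi]
      obtain ⟨k, hk⟩ := exists_moment U (fun q => φ q.out / 2)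
      have e0 : (fun q : GK K ⧸ U => (2 * (φ q.out / 2)) ^ (2 * k)) =
          fun q => φ q.out ^ (2 * k) := by
        funext q
        congr 1
        ring
      rw [e0] at hk
      have h2 := moment_ne U hU φ hφU hφc hφi σ hσ hτ 2
      have e1 : avR U (fun q => φ q.out ^ 2) * Mf (fun x => x ^ 2) = 1 := by
        have e2 : (fun q : GK K ⧸ U => φ q.out ^ 2) = fun q => (s ^ 2)⁻¹ * ψ q.out ^ 2 := by
          funext q
          rw [hφ]
          simp only
          rw [div_pow]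
          ring
        rw [e2, avR_const_mul, mf_two, hssq, hw, ← hM₂]
        have := hpos.ne'
        field_simp
      rw [e1] at h2
      obtain ⟨c, hc1, hc2⟩ := strictR hT hlaw (S := fun v => φ (σ v) * cz τ v) (b := b / s * 1)
        (fun v => by
          rw [abs_mul]
          refine mul_le_mul ?_ (abs_cz _ _) (abs_nonneg _) (by positivity)
          rw [hφ]
          simp only
          rw [abs_div, abs_of_pos hs0]
          exact div_le_div_of_nonneg_right (hψb _) hs0.le)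
        h2 (moment_ne U hU φ hφU hφc hφi σ hσ hτ (2 * k)) hk
      refine ⟨c, hc1, ?_⟩
      filter_upwards [hc2] with ε hε
      have e3 : (fun v => T v * (ψ (σ v) * cz τ v)) =
          fun v => s * (T v * (φ (σ v) * cz τ v)) := by
        funext v
        rw [hφ]
        simp only
        field_simp
      rw [e3, EP_const_mul, mul_div_assoc, abs_mul, abs_of_pos hs0, mul_comm c]
      exact mul_le_mul_of_nonneg_left hε hs0.le
  refine ⟨(1 + θ) / 2, by linarith, ?_⟩
  have h6 := hlim.abs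
  rw [abs_zero] at h6
  have hpos' : 0 < (1 - θ) / 2 * s := mul_pos (by linarith) hs0
  filter_upwards [hev, h6.eventually_lt_const hpos'] with ε e1 e2
  have e3 := abs_sub_abs_le_abs_sub (X ε)
    (EP (nm K) ε (fun v => T v * (ψ (σ v) * cz τ v)) / lam ε)
  rw [abs_sub_comm] at e3
  have e4 : (1 + θ) / 2 * s = θ * s + (1 - θ) / 2 * s := by ring
  rw [e4]
  linarith

end

/-- the law for the normalised traces from the minimal models -/
theorem law_min (E : WeierstrassCurve K) {l P Q : 𝓞 K} (hl : l ≠ 0)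
    (hP : (P : K) = (l : K) ^ 4 * E.c₄) (hQ : (Q : K) = (l : K) ^ 6 * E.c₆)
    (hD : P ^ 3 - Q ^ 2 ≠ 0) (M : HeightOneSpectrum (𝓞 K) → WeierstrassCurve (𝓞 K))
    (hM : ∀ v, IsMinAt E v (M v))
    (hST : ∀ f : ℝ → ℝ, Continuous f →
      Pool.Agent.W353.ST.HasMean (fun v => (f ((trc M v : ℝ) /
        Real.sqrt (Ideal.absNorm v.asIdeal : ℝ)) : ℂ)) (satoTateIntegral f : ℂ))
    (f : ℝ → ℝ) (hf : Continuous f) :
    Tendsto (fun ε : ℝ => (EP (nm K) ε fun v => f (tE P Q v).re) / lam ε) (𝓝[>] 0)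
      (𝓝 (satoTateIntegral f)) := by
  have hgood : ∀ᶠ v : HeightOneSpectrum (𝓞 K) in cofinite,
      (6 : 𝓞 K) ∉ v.asIdeal ∧ P ^ 3 - Q ^ 2 ∉ v.asIdeal := by
    have h6 : (6 : 𝓞 K) ≠ 0 := by norm_num
    rw [Filter.eventually_cofinite]
    refine ((Pool.Agent.H341R2.EC.finite_mem h6).union
      (Pool.Agent.H341R2.EC.finite_mem hD)).subset fun v hv => ?_
    rw [Set.mem_ofPred_eq, not_and_or, not_not, not_not] at hv
    exact hv
  have h1K : ((1 : 𝓞 K) : K) = 1 := map_one (algebraMap (𝓞 K) K)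
  have heq : ∀ᶠ v in cofinite,
      (trc M v : ℝ) / Real.sqrt (Ideal.absNorm v.asIdeal : ℝ) = (tE P Q v).re := by
    filter_upwards [hgood] with v hv
    have h1 : IsMinAt (twist E ((1 : 𝓞 K) : K)) v (M v) := by
      rw [h1K]
      exact isMinAt_one E v (M v) (hM v)
    have hone : (1 : 𝓞 K) ∉ v.asIdeal := fun h => v.isPrime.ne_top ((Ideal.eq_top_iff_one _).2 h)
    have h2 := (count_good hl hP hQ h1 hv.1 hone hv.2).2
    have h3 : chi (1 : 𝓞 K) v = 1 := by
      unfold chi
      rw [map_one, map_one]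
    have h4 : trc M v = -(csumv P Q v) := by
      unfold trc
      rw [h2, h3]
      ring
    unfold tE
    rw [if_pos hv, h4]
    have h5 : (-(csumv P Q v : ℂ) * ((Real.sqrt (Pool.Agent.H921R2.TatePole.nm v) : ℝ) : ℂ)⁻¹) =
        ((-(csumv P Q v : ℝ) * (Real.sqrt (Pool.Agent.H921R2.TatePole.nm v))⁻¹ : ℝ) : ℂ) := by
      push_cast
      rfl
    rw [h5, Complex.ofReal_re, div_eq_mul_inv]
    push_cast
    rfl
  obtain ⟨C, hC⟩ : ∃ C : ℝ, ∀ t : ℝ, |t| ≤ 2 → |f t| ≤ C := by
    obtain ⟨C, hC⟩ := (isCompact_Icc (a := (-2 : ℝ)) (b := 2)).exists_bound_of_continuousOn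
      hf.continuousOn
    exact ⟨C, fun t ht => hC t (abs_le.1 ht)⟩
  have hb : ∀ v, |f (tE P Q v).re| ≤ C := fun v =>
    hC _ ((Complex.abs_re_le_norm _).trans (norm_tE P Q v))
  obtain ⟨C', hC'⟩ := bd_of_cofinite (f := fun v : HeightOneSpectrum (𝓞 K) =>
    f ((trc M v : ℝ) / Real.sqrt (Ideal.absNorm v.asIdeal : ℝ))) (B := C) (by
      filter_upwards [heq] with v hv
      rw [hv]
      exact hb v)
  have h1 := Pool.Agent.W353.ST.hasMean_real hC' (hST f hf)
  refine mean_congr hC' hb ?_ h1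
  filter_upwards [heq] with v hv
  rw [hv]

end

end Pool.Agent.W353.SE
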