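import Pool.Agent.W353.SE.Defs
import Pool.Agent.W353.ST.Regular
import Pool.Agent.W353.NF.Size

/-! A strict inequality from the Sato–Tate law. -/

set_option autoImplicit false

namespace Pool.Agent.W353.SE

open Complex Filter Topology NumberField IsDedekindDomain ComplexConjugate MeasureTheory
  Pool.Agent.W401.Cheb Pool.Agent.W540.BE Pool.Agent.W385.GA
open Pool.Agent.H341R2 (lam lam_tendsto)
open Pool.Agent.W353.ST (vals mem_vals hasMean_iff hasMean_real)

theorem st_one : satoTateIntegral (fun t => t ^ 2) = 1 := by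
  unfold satoTateIntegral
  have h1 : ∀ θ : ℝ, (2 * Real.cos θ) ^ 2 * Real.sin θ ^ 2 =
      4 * (Real.sin θ ^ 2 * Real.cos θ ^ 2) := fun θ => by ring
  simp only [h1]
  rw [intervalIntegral.integral_const_mul, integral_sin_sq_mul_cos_sq]
  have h2 : Real.sin (4 * Real.pi) = 0 := by
    have := Real.sin_nat_mul_pi 4
    simpa using this
  rw [h2, mul_zero, Real.sin_zero]
  have hpi := Real.pi_ne_zero
  field_simp
  ring

theorem st_pos {f : ℝ → ℝ} (hf : Continuous f) (h0 : ∀ t, 0 ≤ f t) {t : ℝ} (ht : t ∈ Set.Ioo 0 2)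
    (hft : f t ≠ 0) : 0 < satoTateIntegral f := by
  unfold satoTateIntegral
  have hpi := Real.pi_pos
  refine mul_pos (by positivity) ?_
  refine intervalIntegral.integral_pos hpi ?_ ?_ ?_
  · exact (((hf.comp (continuous_const.mul Real.continuous_cos)).mul
      (Real.continuous_sin.pow 2))).continuousOn
  · intro θ _
    exact mul_nonneg (h0 _) (sq_nonneg _)
  · refine ⟨Real.arccos (t / 2), ⟨Real.arccos_nonneg _, Real.arccos_le_pi _⟩, ?_⟩
    have h1 : Real.cos (Real.arccos (t / 2)) = t / 2 :=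
      Real.cos_arccos (by linarith [ht.1]) (by linarith [ht.2])
    have h2 : 2 * Real.cos (Real.arccos (t / 2)) = t := by
      rw [h1]
      ring
    have h3 : 0 < Real.sin (Real.arccos (t / 2)) := by
      rw [Real.sin_arccos]
      apply Real.sqrt_pos.2
      have h4 : (t / 2) ^ 2 < 1 := by
        have := ht.1
        have := ht.2
        nlinarith
      linarith
    rw [h2]
    exact mul_pos (lt_of_le_of_ne (h0 t) (Ne.symm hft)) (by positivity)

section
variable {K : Type} [Field K] [NumberField K]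

/-- some prime -/
noncomputable def vx0 (K : Type) [Field K] [NumberField K] : HeightOneSpectrum (𝓞 K) :=
  Pool.Agent.W353.NF.vx ((Pool.Agent.W353.TP.sysH K).nonempty.some)

/-- **The strict inequality.** -/
theorem strictV {T : HeightOneSpectrum (𝓞 K) → ℝ} (hT : ∀ v, |T v| ≤ 2)
    (hlaw : ∀ f : ℝ → ℝ, Continuous f →
      Tendsto (fun ε : ℝ => (EP (nm K) ε fun v => f (T v)) / lam ε) (𝓝[>] 0)
        (𝓝 (satoTateIntegral f)))
    {V : HeightOneSpectrum (𝓞 K) → ℂ} (Y₀ : Finset ℝ) (hVY : ∀ v, ‖V v‖ ∈ Y₀)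
    {b : ℝ} (hvb : ∀ v, ‖V v‖ ≤ b) {g : ℝ} (hpos : 0 < g)
    (h3 : Tendsto (fun ε : ℝ => (EP (nm K) ε fun v => (V v * conj (V v)).re) / lam ε)
      (𝓝[>] 0) (𝓝 g)) :
    ∃ c : ℝ, c < 1 ∧ ∀ᶠ ε : ℝ in 𝓝[>] 0,
      |(EP (nm K) ε fun v => ((T v : ℂ) * conj (V v)).re) / lam ε| ≤ c * Real.sqrt g := by
  classical
  have hN : NormSys (nm K) := normSys
  have hb0 : 0 ≤ b := (norm_nonneg _).trans (hvb (vx0 K))
  set N : ℝ := Real.sqrt g with hNdef
  have hN0 : 0 < N := Real.sqrt_pos.2 hpos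
  have hNsq : N ^ 2 = g := Real.sq_sqrt hpos.le
  set X : ℝ → ℝ := fun ε =>
    (EP (nm K) ε fun v => ((T v : ℂ) * conj (V v)).re) / lam ε with hX
  -- the test function
  set Y : Finset ℝ := Y₀.image fun z => z / N with hY
  have hYmem : ∀ v, ‖V v‖ / N ∈ Y := by
    intro v
    rw [hY, Finset.mem_image]
    exact ⟨_, hVY v, rfl⟩
  set P : ℝ → ℝ := fun t => ∏ y ∈ Y, (|t| - y) ^ 2 with hP
  have hPc : Continuous P := continuous_finsetProd _ fun y _ =>
    ((continuous_abs.sub continuous_const).pow 2)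
  have hP0 : ∀ t, 0 ≤ P t := fun t => Finset.prod_nonneg fun y _ => sq_nonneg _
  set M : ℝ := (2 + ∑ y ∈ Y, |y|) ^ 2 + 1 with hM
  have hM1 : 1 ≤ M := by
    rw [hM]
    linarith [sq_nonneg (2 + ∑ y ∈ Y, |y|)]
  have hfac : ∀ t : ℝ, |t| ≤ 2 → ∀ y ∈ Y, (|t| - y) ^ 2 ≤ M := by
    intro t ht y hy
    have h1 : |y| ≤ ∑ y ∈ Y, |y| := Finset.single_le_sum (f := fun y => |y|)
      (fun y _ => abs_nonneg y) hy
    have h2 : |(|t| - y)| ≤ 2 + ∑ y ∈ Y, |y| := by
      refine (abs_sub _ _).trans ?_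
      rw [abs_abs]
      linarith
    have h3 := pow_le_pow_left₀ (abs_nonneg _) h2 2
    rw [sq_abs] at h3
    rw [hM]
    linarith
  have hPle : ∀ v, P (T v) ≤ M ^ Y.card * (|T v| - ‖V v‖ / N) ^ 2 := by
    intro v
    have h1 : P (T v) = (|T v| - ‖V v‖ / N) ^ 2 *
        ∏ y ∈ Y.erase (‖V v‖ / N), (|T v| - y) ^ 2 :=
      (Finset.mul_prod_erase _ _ (hYmem v)).symm
    rw [h1, mul_comm]
    refine mul_le_mul_of_nonneg_right ?_ (sq_nonneg _)
    refine (Finset.prod_le_prod (fun y _ => sq_nonneg _) fun y hy =>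
      hfac (T v) (hT v) y (Finset.mem_of_mem_erase hy)).trans ?_
    rw [Finset.prod_const]
    exact pow_le_pow_right₀ hM1 (Finset.card_le_card (Finset.erase_subset _ _))
  have hPb : ∀ v, |P (T v)| ≤ M ^ Y.card := by
    intro v
    rw [abs_of_nonneg (hP0 _)]
    refine (Finset.prod_le_prod (fun y _ => sq_nonneg _) fun y hy => hfac (T v) (hT v) y hy).trans ?_
    rw [Finset.prod_const]
  obtain ⟨t₀, ht₀, ht₀Y⟩ : ∃ t ∈ Set.Ioo (0 : ℝ) 2, t ∉ Y := by
    obtain ⟨t, h1, h2⟩ := ((Set.Ioo_infinite (by norm_num : (0 : ℝ) < 2)).sdiff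
      Y.finite_toSet).nonempty
    exact ⟨t, h1, h2⟩
  have hQ : 0 < satoTateIntegral P := by
    refine st_pos hPc hP0 ht₀ (Finset.prod_ne_zero_iff.2 fun y hy => pow_ne_zero 2 ?_)
    rw [abs_of_pos ht₀.1, sub_ne_zero]
    rintro rfl
    exact ht₀Y hy
  set Q : ℝ := satoTateIntegral P with hQdef
  set C : ℝ := M ^ Y.card with hC
  have hC0 : 0 < C := by positivity
  have h1 := hlaw P hPc
  have h2 := hlaw (fun t => t ^ 2) (continuous_pow 2)
  rw [st_one] at h2
  have key : ∀ σ : ℝ, σ = 1 ∨ σ = -1 → ∀ᶠ ε : ℝ in 𝓝[>] 0, -(σ * X ε) ≤ (1 - Q / (4 * C)) * N := by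
    intro σ hσ
    have hσ2 : σ ^ 2 = 1 := by rcases hσ with h | h <;> rw [h] <;> norm_num
    have hη : 0 < Q / (4 * C) := by positivity
    have h4 : Tendsto (fun ε : ℝ => (EP (nm K) ε fun v => T v ^ 2) / lam ε +
        (N ^ 2)⁻¹ * ((EP (nm K) ε fun v => (V v * conj (V v)).re) / lam ε))
        (𝓝[>] 0) (𝓝 (1 + (N ^ 2)⁻¹ * g)) := h2.add (h3.const_mul _)
    rw [← hNsq, inv_mul_cancel₀ (by positivity)] at h4
    filter_upwards [h4.eventually_lt_const (by linarith : (1 : ℝ) + 1 < 2 + Q / (4 * C)),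
      h1.eventually_const_lt (by linarith : Q - Q / 4 < Q), self_mem_nhdsWithin,
      lam_tendsto.eventually_gt_atTop 0] with ε e1 e2 e3 e4
    have hε : (0 : ℝ) < ε := e3
    set D : HeightOneSpectrum (𝓞 K) → ℝ := fun v =>
      (T v ^ 2 + (2 * σ / N) * ((T v : ℂ) * conj (V v)).re) +
      (N ^ 2)⁻¹ * (V v * conj (V v)).re with hD
    have hDge : ∀ v, (|T v| - ‖V v‖ / N) ^ 2 ≤ D v := by
      intro v
      have e5 : (V v * conj (V v)).re = ‖V v‖ ^ 2 := by
        rw [Complex.mul_conj, Complex.ofReal_re, Complex.normSq_eq_norm_sq]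
      have e6 : -(|T v| * ‖V v‖) ≤ σ * ((T v : ℂ) * conj (V v)).re := by
        have e7 : |σ * ((T v : ℂ) * conj (V v)).re| ≤ |T v| * ‖V v‖ := by
          rw [abs_mul]
          have : |σ| = 1 := by rcases hσ with h | h <;> rw [h] <;> simp
          rw [this, one_mul]
          refine (Complex.abs_re_le_norm _).trans ?_
          rw [norm_mul, Complex.norm_conj, Complex.norm_real, Real.norm_eq_abs]
        exact (abs_le.1 e7).1
      rw [hD]
      simp only
      rw [e5, sub_sq, sq_abs, div_pow]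
      have e8 : 2 * σ / N * ((T v : ℂ) * conj (V v)).re =
          2 / N * (σ * ((T v : ℂ) * conj (V v)).re) := by ring
      have e9 : 2 / N * (-(|T v| * ‖V v‖)) ≤
          2 / N * (σ * ((T v : ℂ) * conj (V v)).re) :=
        mul_le_mul_of_nonneg_left e6 (by positivity)
      rw [e8]
      have e10 : 2 * |T v| * (‖V v‖ / N) = -(2 / N * (-(|T v| * ‖V v‖))) := by
        ring
      have e11 : ‖V v‖ ^ 2 / N ^ 2 = (N ^ 2)⁻¹ * ‖V v‖ ^ 2 := div_eq_inv_mul _ _
      rw [e10, e11]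
      linarith
    have hb1 : ∀ v, |T v ^ 2| ≤ 2 ^ 2 := fun v => by
      rw [abs_pow]
      exact pow_le_pow_left₀ (abs_nonneg _) (hT v) 2
    have hb2 : ∀ v, |((T v : ℂ) * conj (V v)).re| ≤ 2 * b := fun v => by
      refine (Complex.abs_re_le_norm _).trans ?_
      rw [norm_mul, Complex.norm_conj, Complex.norm_real, Real.norm_eq_abs]
      exact mul_le_mul (hT v) (hvb v) (norm_nonneg _) (by norm_num)
    have hb3 : ∀ v, |(V v * conj (V v)).re| ≤ b * b := fun v => by
      refine (Complex.abs_re_le_norm _).trans ?_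
      rw [norm_mul, Complex.norm_conj]
      exact mul_le_mul (hvb v) (hvb v) (norm_nonneg _) hb0
    have hb2' : ∀ v, |(2 * σ / N) * ((T v : ℂ) * conj (V v)).re| ≤
        |2 * σ / N| * (2 * b) := fun v => by
      rw [abs_mul]
      exact mul_le_mul_of_nonneg_left (hb2 v) (abs_nonneg _)
    have hb3' : ∀ v, |(N ^ 2)⁻¹ * (V v * conj (V v)).re| ≤
        |(N ^ 2)⁻¹| * (b * b) := fun v => by
      rw [abs_mul]
      exact mul_le_mul_of_nonneg_left (hb3 v) (abs_nonneg _)
    have hb12 : ∀ v, |T v ^ 2 + (2 * σ / N) * ((T v : ℂ) * conj (V v)).re| ≤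
        2 ^ 2 + |2 * σ / N| * (2 * b) := fun v =>
      (abs_add_le _ _).trans (add_le_add (hb1 v) (hb2' v))
    have hbD : ∀ v, |C * D v| ≤ C * (2 ^ 2 + |2 * σ / N| * (2 * b) +
        |(N ^ 2)⁻¹| * (b * b)) := fun v => by
      rw [abs_mul, abs_of_pos hC0]
      exact mul_le_mul_of_nonneg_left ((abs_add_le _ _).trans (add_le_add (hb12 v) (hb3' v))) hC0.le
    have hED : (EP (nm K) ε D) / lam ε = (EP (nm K) ε fun v => T v ^ 2) / lam ε +
        (2 * σ / N) * X ε + (N ^ 2)⁻¹ *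
          ((EP (nm K) ε fun v => (V v * conj (V v)).re) / lam ε) := by
      rw [hD, EP_add hN hε hb12 hb3', EP_add hN hε hb1 hb2', EP_const_mul, EP_const_mul, hX]
      simp only
      ring
    have h7 : (EP (nm K) ε fun v => P (T v)) ≤ C * EP (nm K) ε D := by
      rw [← EP_const_mul]
      exact Pool.Agent.W353.L1.EP_mono hPb hbD
        (fun v => (hPle v).trans (mul_le_mul_of_nonneg_left (hDge v) hC0.le)) hε
    have h8 : Q - Q / 4 < C * ((EP (nm K) ε D) / lam ε) := by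
      refine e2.trans_le ?_
      rw [← mul_div_assoc]
      exact div_le_div_of_nonneg_right h7 e4.le
    rw [hED] at h8
    have h9 : C * ((EP (nm K) ε fun v => T v ^ 2) / lam ε + (2 * σ / N) * X ε + (N ^ 2)⁻¹ *
          ((EP (nm K) ε fun v => (V v * conj (V v)).re) / lam ε)) <
        C * (2 + Q / (4 * C) + (2 * σ / N) * X ε) := by
      refine mul_lt_mul_of_pos_left ?_ hC0
      linarith
    have h10 := h8.trans h9
    have h11 : C * (2 + Q / (4 * C) + (2 * σ / N) * X ε) =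
        2 * C + Q / 4 + 2 * C / N * (σ * X ε) := by
      field_simp
    rw [h11] at h10
    have h12 : 2 * C / N * (-(σ * X ε)) < 2 * C - Q / 2 := by linarith
    have h13 : 2 * C / N * ((1 - Q / (4 * C)) * N) = 2 * C - Q / 2 := by
      field_simp
      ring
    rw [← h13] at h12
    exact (lt_of_mul_lt_mul_left h12 (by positivity)).le
  refine ⟨1 - Q / (4 * C), by
    have : 0 < Q / (4 * C) := by positivity
    linarith, ?_⟩
  filter_upwards [key 1 (Or.inl rfl), key (-1) (Or.inr rfl)] with ε h1 h2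
  rw [abs_le]
  constructor <;> linarith

end

end Pool.Agent.W353.SE
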