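import Pool.Agent.W353.SE.Orb

/-! Families of elliptic curves with pairwise uncorrelated traces. -/

set_option autoImplicit false

namespace Pool.Agent.W353.SE

open Complex Filter Topology NumberField IsDedekindDomain ComplexConjugate Asymptotics
  Pool.Agent.W401.Cheb Pool.Agent.W540.BE Pool.Agent.W353.L1 Pool.Agent.W353.NF
open Pool.Agent.W353.TP (HX sysH)
open Pool.Agent.W353.AB (Sy syE tE tEH tE_ker norm_tE)
open Pool.Agent.H341R2 (lam lam_tendsto sysK)
open Pool.Agent.H341R2.EC (IsMinAt trc count_good csumv twist)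
open Pool.Agent.H341R2 (chi)

section
variable {K : Type} [Field K] [NumberField K]

/-- **Bessel's inequality for mean values.** -/
theorem bessel_fam {ι : Type} [Fintype ι] [DecidableEq ι]
    {T : ι → HeightOneSpectrum (𝓞 K) → ℝ} {a : ℝ}
    (hT : ∀ i v, |T i v| ≤ a)
    (horth : ∀ i j, Tendsto (fun ε : ℝ => (EP (nm K) ε fun v => T i v * T j v) / lam ε) (𝓝[>] 0)
      (𝓝 (if i = j then 1 else 0)))
    {R : HeightOneSpectrum (𝓞 K) → ℝ} {b : ℝ} (hR : ∀ v, |R v| ≤ b) {g : ℝ}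
    (hg : Tendsto (fun ε : ℝ => (EP (nm K) ε fun v => R v ^ 2) / lam ε) (𝓝[>] 0) (𝓝 g))
    {X : ι → ℝ → ℝ}
    (hX : ∀ i, Tendsto (fun ε : ℝ => EP (nm K) ε (fun v => T i v * R v) / lam ε - X i ε)
      (𝓝[>] 0) (𝓝 0)) {η : ℝ} (hη : 0 < η) :
    ∀ᶠ ε : ℝ in 𝓝[>] 0, ∑ i, X i ε ^ 2 ≤ g + η := by
  have hN : NormSys (nm K) := normSys
  have hb0 : 0 ≤ b := (abs_nonneg _).trans (hR (vx0 K))
  set x : ι → ℝ → ℝ := fun i ε => EP (nm K) ε (fun v => T i v * R v) / lam ε with hx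
  set G : ι → ι → ℝ → ℝ := fun i j ε => (EP (nm K) ε fun v => T i v * T j v) / lam ε with hG
  have hTR : ∀ i v, |T i v * R v| ≤ a * b := fun i v => by
    rw [abs_mul]
    exact mul_le_mul (hT i v) (hR v) (abs_nonneg _) ((abs_nonneg _).trans (hT i v))
  have hTT : ∀ i j v, |T i v * T j v| ≤ a * a := fun i j v => by
    rw [abs_mul]
    exact mul_le_mul (hT i v) (hT j v) (abs_nonneg _) ((abs_nonneg _).trans (hT i v))
  have hR2 : ∀ v, |R v ^ 2| ≤ b ^ 2 := fun v => by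
    rw [abs_pow]
    exact pow_le_pow_left₀ (abs_nonneg _) (hR v) 2
  -- the `x i` are bounded
  have hxb : ∀ i, ∀ᶠ ε : ℝ in 𝓝[>] 0, |x i ε| ≤ a * b * 2 := by
    intro i
    filter_upwards [(EP_one K).eventually_lt_const (by norm_num : (1 : ℝ) < 2),
      self_mem_nhdsWithin, lam_tendsto.eventually_gt_atTop 0] with ε e1 e2 e3
    have hε : (0 : ℝ) < ε := e2
    have hab : 0 ≤ a * b := (abs_nonneg _).trans (hTR i (vx0 K))
    rw [hx]
    simp only
    rw [abs_div, abs_of_pos e3, div_le_iff₀ e3]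
    have e4 := EP_abs_le (F := K) (φ := fun v => T i v * R v) (ψ := fun _ => a * b * 1)
      (B := a * b)
      (fun v => by rw [mul_one, abs_of_nonneg hab]) (fun v => by rw [mul_one]; exact hTR i v) hε
    rw [EP_const_mul] at e4
    rw [div_lt_iff₀ e3] at e1
    calc |EP (nm K) ε fun v => T i v * R v| ≤ a * b * EP (nm K) ε fun _ => 1 := e4
      _ ≤ a * b * (2 * lam ε) := mul_le_mul_of_nonneg_left e1.le hab
      _ = a * b * 2 * lam ε := by ring
  -- Bessel
  have hbes : ∀ᶠ ε : ℝ in 𝓝[>] 0, ∑ i, x i ε ^ 2 ≤ (EP (nm K) ε fun v => R v ^ 2) / lam ε +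
      ∑ i, ∑ j, x i ε * x j ε * (G i j ε - if i = j then 1 else 0) := by
    filter_upwards [self_mem_nhdsWithin, lam_tendsto.eventually_gt_atTop 0] with ε e2 e3
    have hε : (0 : ℝ) < ε := e2
    have h1 : 0 ≤ EP (nm K) ε fun v => (R v - ∑ i, x i ε * T i v) ^ 2 := by
      unfold EP
      exact tsum_nonneg fun v => mul_nonneg (sq_nonneg _) (wP_nonneg ε v)
    have h2 : (fun v => (R v - ∑ i, x i ε * T i v) ^ 2) = fun v =>
        (R v ^ 2 + ∑ i, (-2 * x i ε) * (T i v * R v)) +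
          ∑ i, ∑ j, (x i ε * x j ε) * (T i v * T j v) := by
      funext v
      have e4 : (R v - ∑ i, x i ε * T i v) ^ 2 = R v ^ 2 - 2 * R v * (∑ i, x i ε * T i v) +
          (∑ i, x i ε * T i v) * (∑ j, x j ε * T j v) := by ring
      rw [e4, Finset.sum_mul_sum, Finset.mul_sum, sub_eq_add_neg, ← Finset.sum_neg_distrib]
      congr 1
      · congr 1
        exact Finset.sum_congr rfl fun i _ => by ring
      · exact Finset.sum_congr rfl fun i _ => Finset.sum_congr rfl fun j _ => by ring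
    have hc1 : ∀ i v, |(-2 * x i ε) * (T i v * R v)| ≤ |-2 * x i ε| * (a * b) := fun i v => by
      rw [abs_mul]
      exact mul_le_mul_of_nonneg_left (hTR i v) (abs_nonneg _)
    have hc2 : ∀ i j v, |(x i ε * x j ε) * (T i v * T j v)| ≤ |x i ε * x j ε| * (a * a) :=
      fun i j v => by
        rw [abs_mul]
        exact mul_le_mul_of_nonneg_left (hTT i j v) (abs_nonneg _)
    have hc3 : ∀ v, |∑ i, (-2 * x i ε) * (T i v * R v)| ≤ ∑ i, |-2 * x i ε| * (a * b) := fun v =>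
      (Finset.abs_sum_le_sum_abs _ _).trans (Finset.sum_le_sum fun i _ => hc1 i v)
    have hc4 : ∀ i v, |∑ j, (x i ε * x j ε) * (T i v * T j v)| ≤
        ∑ j, |x i ε * x j ε| * (a * a) := fun i v =>
      (Finset.abs_sum_le_sum_abs _ _).trans (Finset.sum_le_sum fun j _ => hc2 i j v)
    have hc5 : ∀ v, |∑ i, ∑ j, (x i ε * x j ε) * (T i v * T j v)| ≤
        ∑ i, ∑ j, |x i ε * x j ε| * (a * a) := fun v =>
      (Finset.abs_sum_le_sum_abs _ _).trans (Finset.sum_le_sum fun i _ => hc4 i v)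
    have hc6 : ∀ v, |R v ^ 2 + ∑ i, (-2 * x i ε) * (T i v * R v)| ≤
        b ^ 2 + ∑ i, |-2 * x i ε| * (a * b) := fun v =>
      (abs_add_le _ _).trans (add_le_add (hR2 v) (hc3 v))
    rw [h2, EP_add hN hε hc6 hc5, EP_add hN hε hR2 hc3,
      EP_sum hN hε Finset.univ _ _ (fun i _ => hc1 i),
      EP_sum hN hε Finset.univ _ _ (fun i _ => hc4 i)] at h1
    have h3 : ∀ i, (EP (nm K) ε fun v => (-2 * x i ε) * (T i v * R v)) =
        -2 * x i ε * (x i ε * lam ε) := by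
      intro i
      rw [EP_const_mul]
      congr 1
      rw [hx]
      simp only
      rw [div_mul_cancel₀ _ e3.ne']
    have h4 : ∀ i, (EP (nm K) ε fun v => ∑ j, (x i ε * x j ε) * (T i v * T j v)) =
        ∑ j, x i ε * x j ε * (G i j ε * lam ε) := by
      intro i
      rw [EP_sum hN hε Finset.univ _ _ (fun j _ => hc2 i j)]
      refine Finset.sum_congr rfl fun j _ => ?_
      rw [EP_const_mul]
      congr 1
      rw [hG]
      simp only
      rw [div_mul_cancel₀ _ e3.ne']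
    rw [Finset.sum_congr rfl fun i _ => h3 i, Finset.sum_congr rfl fun i _ => h4 i] at h1
    have h5 : 0 ≤ (EP (nm K) ε fun v => R v ^ 2) / lam ε + ∑ i, -2 * x i ε * x i ε +
        ∑ i, ∑ j, x i ε * x j ε * G i j ε := by
      have h6 := div_nonneg h1 e3.le
      have h7 : ((EP (nm K) ε fun v => R v ^ 2) + ∑ i, -2 * x i ε * (x i ε * lam ε) +
          ∑ i, ∑ j, x i ε * x j ε * (G i j ε * lam ε)) / lam ε =
          (EP (nm K) ε fun v => R v ^ 2) / lam ε + ∑ i, -2 * x i ε * x i ε +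
          ∑ i, ∑ j, x i ε * x j ε * G i j ε := by
        rw [add_div, add_div, Finset.sum_div, Finset.sum_div]
        congr 1
        · congr 1
          refine Finset.sum_congr rfl fun i _ => ?_
          field_simp
        · refine Finset.sum_congr rfl fun i _ => ?_
          rw [Finset.sum_div]
          refine Finset.sum_congr rfl fun j _ => ?_
          field_simp
      rw [h7] at h6
      exact h6
    have h8 : ∑ i, ∑ j, x i ε * x j ε * (G i j ε - if i = j then 1 else 0) =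
        ∑ i, ∑ j, x i ε * x j ε * G i j ε - ∑ i, x i ε ^ 2 := by
      rw [← Finset.sum_sub_distrib]
      refine Finset.sum_congr rfl fun i _ => ?_
      have e4 : ∀ j, x i ε * x j ε * (G i j ε - if i = j then 1 else 0) =
          x i ε * x j ε * G i j ε - if i = j then x i ε * x j ε else 0 := by
        intro j
        split_ifs <;> ring
      rw [Finset.sum_congr rfl fun j _ => e4 j, Finset.sum_sub_distrib, Finset.sum_ite_eq,
        if_pos (Finset.mem_univ _)]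
      ring
    have h9 : ∑ i, -2 * x i ε * x i ε = -2 * ∑ i, x i ε ^ 2 := by
      rw [Finset.mul_sum]
      exact Finset.sum_congr rfl fun i _ => by ring
    rw [h9] at h5
    rw [h8]
    linarith
  -- the error terms
  have herr : Tendsto (fun ε : ℝ => (a * b * 2) * (a * b * 2) *
      ∑ i, ∑ j, |G i j ε - if i = j then 1 else 0|) (𝓝[>] 0) (𝓝 0) := by
    have h1 : Tendsto (fun ε : ℝ => ∑ i, ∑ j, |G i j ε - if i = j then 1 else 0|) (𝓝[>] 0)
        (𝓝 (∑ i : ι, ∑ j : ι, (0 : ℝ))) := by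
      refine tendsto_finsetSum _ fun i _ => tendsto_finsetSum _ fun j _ => ?_
      have h2 := ((horth i j).sub_const (if i = j then (1 : ℝ) else 0)).abs
      rw [sub_self, abs_zero] at h2
      exact h2
    have h3 := h1.const_mul ((a * b * 2) * (a * b * 2))
    simpa using h3
  have hdiff : Tendsto (fun ε : ℝ => ∑ i, |x i ε - X i ε| * (|x i ε - X i ε| + 2 * (a * b * 2)))
      (𝓝[>] 0) (𝓝 0) := by
    have h1 : Tendsto (fun ε : ℝ => ∑ i, |x i ε - X i ε| *
        (|x i ε - X i ε| + 2 * (a * b * 2))) (𝓝[>] 0) (𝓝 (∑ i : ι, |(0 : ℝ)| *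
          (|(0 : ℝ)| + 2 * (a * b * 2)))) :=
      tendsto_finsetSum _ fun i _ => (hX i).abs.mul ((hX i).abs.add_const _)
    simpa using h1
  filter_upwards [hbes, Filter.eventually_all.2 hxb, hg.eventually_lt_const (by linarith :
    g < g + η / 3), herr.eventually_lt_const (by linarith : (0 : ℝ) < η / 3),
    hdiff.eventually_lt_const (by linarith : (0 : ℝ) < η / 3)] with ε e1 e2 e3 e4 e5
  have h1 : ∑ i, ∑ j, x i ε * x j ε * (G i j ε - if i = j then 1 else 0) ≤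
      (a * b * 2) * (a * b * 2) * ∑ i, ∑ j, |G i j ε - if i = j then 1 else 0| := by
    rw [Finset.mul_sum]
    refine Finset.sum_le_sum fun i _ => ?_
    rw [Finset.mul_sum]
    refine Finset.sum_le_sum fun j _ => ?_
    refine (le_abs_self _).trans ?_
    rw [abs_mul, abs_mul]
    exact mul_le_mul_of_nonneg_right (mul_le_mul (e2 i) (e2 j) (abs_nonneg _)
      ((abs_nonneg _).trans (e2 i))) (abs_nonneg _)
  have h2 : ∑ i, X i ε ^ 2 ≤ ∑ i, x i ε ^ 2 +
      ∑ i, |x i ε - X i ε| * (|x i ε - X i ε| + 2 * (a * b * 2)) := by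
    rw [← Finset.sum_add_distrib]
    refine Finset.sum_le_sum fun i _ => ?_
    have h3 : X i ε ^ 2 - x i ε ^ 2 = (x i ε - X i ε) * ((x i ε - X i ε) - 2 * x i ε) := by ring
    have h4 : (x i ε - X i ε) * ((x i ε - X i ε) - 2 * x i ε) ≤
        |x i ε - X i ε| * (|x i ε - X i ε| + 2 * (a * b * 2)) := by
      refine (le_abs_self _).trans ?_
      rw [abs_mul]
      refine mul_le_mul_of_nonneg_left ((abs_sub _ _).trans (add_le_add le_rfl ?_)) (abs_nonneg _)
      rw [abs_mul, abs_two]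
      exact mul_le_mul_of_nonneg_left (e2 i) two_pos.le
    linarith
  linarith

/-- a class function has a bound -/
theorem cls_bd (U : Subgroup (GK K)) [U.Normal] [Finite (GK K ⧸ U)]
    (ψ : GK K → ℝ) (hψU : ∀ σ, ∀ u ∈ U, ψ (σ * u) = ψ σ) : ∃ b : ℝ, ∀ g, |ψ g| ≤ b := by
  obtain ⟨Y, hY⟩ := fin_val U ψ hψU
  exact ⟨∑ y ∈ Y, |y|, fun g =>
    Finset.single_le_sum (f := fun y => |y|) (fun y _ => abs_nonneg y) (hY g)⟩

/-- the sizes as mean values -/
theorem size_lim {P Q : 𝓞 K} {ψ : GK K → ℝ} {b : ℝ} (hψ : ∀ g, |ψ g| ≤ b)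
    (σ : HeightOneSpectrum (𝓞 K) → GK K) (τ : ℝ) (X : ℝ → ℝ)
    (hX : SzH (TT (syE P Q)) (fun v => ψ (σ v) * cz τ v) X) :
    Tendsto (fun ε : ℝ => EP (nm K) ε (fun v => (tE P Q v).re * (ψ (σ v) * cz τ v)) / lam ε -
      X ε) (𝓝[>] 0) (𝓝 0) := by
  have hb0 : 0 ≤ b := (abs_nonneg _).trans (hψ 1)
  refine szh_lim hX (B := 2 * (b * 1)) (fun v => ?_) fun x => ?_
  · rw [abs_mul, abs_mul]
    exact mul_le_mul ((Complex.abs_re_le_norm _).trans (norm_tE P Q v))
      (mul_le_mul (hψ _) (abs_cz _ _) (abs_nonneg _) hb0) (by positivity) (by norm_num)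
  · have h1 : TT (syE P Q) x = (tE P Q (vx x)).re := by
      have h2 : TT (syE P Q) x = ∑ _j ∈ ({()} : Finset Unit), (tEH P Q x).re := rfl
      have h3 := tE_ker (RingHom.id (𝓞 K)) P Q x.1 x.2
      rw [RingHom.comp_id] at h3
      rw [h2, Finset.sum_singleton]
      have h4 : tE P Q (vx x) = tEH P Q x := h3
      rw [h4]
    rw [h1]

/-- the mean square -/
theorem mean_cls (U : Subgroup (GK K)) [U.Normal] (hU : IsOpen (U : Set (GK K)))
    [Finite (GK K ⧸ U)] (ψ : GK K → ℝ) (hψU : ∀ σ, ∀ u ∈ U, ψ (σ * u) = ψ σ)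
    (hc : ∀ σ ρ, ψ (ρ * σ * ρ⁻¹) = ψ σ) (hi : ∀ σ, ψ σ⁻¹ = ψ σ)
    (σ : HeightOneSpectrum (𝓞 K) → GK K) (hσ : ∀ v, IsFrob v (σ v)) (τ : ℝ) :
    Tendsto (fun ε : ℝ => (EP (nm K) ε fun v => (ψ (σ v) * cz τ v) ^ 2) / lam ε) (𝓝[>] 0)
      (𝓝 (wt τ * avR U fun q => ψ q.out ^ 2)) := by
  classical
  by_cases hτ : τ = 0
  · have hcz : ∀ v : HeightOneSpectrum (𝓞 K), cz τ v = 1 := by
      intro v
      rw [hτ]
      unfold cz zz
      simp
    have hw : wt τ = 1 := by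
      unfold wt
      rw [if_pos hτ]
    have hm := real_mean U hU (fun g => ψ g ^ 2) (fun g u hu => by rw [hψU g u hu])
      (fun g ρ => by rw [hc]) (fun g => by rw [hi]) σ hσ 0
    have hk : kap 0 = 1 := by
      unfold kap
      rw [if_pos rfl]
    rw [hk] at hm
    have e1 : (avR U fun q => |ψ q.out ^ 2|) = avR U fun q => ψ q.out ^ 2 := by
      congr 1
      funext q
      exact abs_of_nonneg (sq_nonneg _)
    rw [e1] at hm
    rw [hw]
    refine hm.congr fun ε => ?_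
    congr 2
    funext v
    have e2 : cz 0 v = 1 := by
      have := hcz v
      rwa [hτ] at this
    rw [e2, mul_one, abs_of_nonneg (sq_nonneg _), hcz, mul_one]
  · have hw : wt τ = 1 / 2 := by
      unfold wt
      rw [if_neg hτ]
    have h2 := moment_ne U hU ψ hψU hc hi σ hσ hτ 2
    rw [mf_two, mul_comm] at h2
    rw [hw]
    exact h2

/-- the correlations of the normalised traces from the minimal models -/
theorem corr_min {E E' : WeierstrassCurve K} {l P Q l' P' Q' : 𝓞 K} (hl : l ≠ 0)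
    (hP : (P : K) = (l : K) ^ 4 * E.c₄) (hQ : (Q : K) = (l : K) ^ 6 * E.c₆)
    (hD : P ^ 3 - Q ^ 2 ≠ 0) (hl' : l' ≠ 0)
    (hP' : (P' : K) = (l' : K) ^ 4 * E'.c₄) (hQ' : (Q' : K) = (l' : K) ^ 6 * E'.c₆)
    (hD' : P' ^ 3 - Q' ^ 2 ≠ 0) {M M' : HeightOneSpectrum (𝓞 K) → WeierstrassCurve (𝓞 K)}
    (hM : ∀ v, IsMinAt E v (M v)) (hM' : ∀ v, IsMinAt E' v (M' v)) {m : ℝ}
    (h : Pool.Agent.W353.ST.HasMean (fun v => (((trc M v : ℝ) * (trc M' v : ℝ) /
        (Ideal.absNorm v.asIdeal : ℝ) : ℝ) : ℂ)) (m : ℂ)) :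
    Tendsto (fun ε : ℝ => (EP (nm K) ε fun v => (tE P Q v).re * (tE P' Q' v).re) / lam ε)
      (𝓝[>] 0) (𝓝 m) := by
  have hgood : ∀ᶠ v : HeightOneSpectrum (𝓞 K) in cofinite,
      (6 : 𝓞 K) ∉ v.asIdeal ∧ P ^ 3 - Q ^ 2 ∉ v.asIdeal ∧ P' ^ 3 - Q' ^ 2 ∉ v.asIdeal := by
    have h6 : (6 : 𝓞 K) ≠ 0 := by norm_num
    rw [Filter.eventually_cofinite]
    refine (((Pool.Agent.H341R2.EC.finite_mem h6).union
      (Pool.Agent.H341R2.EC.finite_mem hD)).union
      (Pool.Agent.H341R2.EC.finite_mem hD')).subset fun v hv => ?_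
    rw [Set.mem_ofPred_eq, not_and_or, not_and_or, not_not, not_not, not_not] at hv
    rcases hv with h | h | h
    · exact Or.inl (Or.inl h)
    · exact Or.inl (Or.inr h)
    · exact Or.inr h
  have h1K : ((1 : 𝓞 K) : K) = 1 := map_one (algebraMap (𝓞 K) K)
  have key : ∀ {E : WeierstrassCurve K} {l P Q : 𝓞 K}, l ≠ 0 → (P : K) = (l : K) ^ 4 * E.c₄ →
      (Q : K) = (l : K) ^ 6 * E.c₆ → ∀ {M : HeightOneSpectrum (𝓞 K) → WeierstrassCurve (𝓞 K)},
      (∀ v, IsMinAt E v (M v)) → ∀ v : HeightOneSpectrum (𝓞 K), (6 : 𝓞 K) ∉ v.asIdeal →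
      P ^ 3 - Q ^ 2 ∉ v.asIdeal →
      (tE P Q v).re = (trc M v : ℝ) * (Real.sqrt (Ideal.absNorm v.asIdeal : ℝ))⁻¹ := by
    intro E l P Q hl hP hQ M hM v h6 hDv
    have h1 : IsMinAt (twist E ((1 : 𝓞 K) : K)) v (M v) := by
      rw [h1K]
      exact isMinAt_one E v (M v) (hM v)
    have hone : (1 : 𝓞 K) ∉ v.asIdeal := fun h => v.isPrime.ne_top ((Ideal.eq_top_iff_one _).2 h)
    have h2 := (count_good hl hP hQ h1 h6 hone hDv).2
    have h3 : chi (1 : 𝓞 K) v = 1 := by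
      unfold chi
      rw [map_one, map_one]
    have h4 : trc M v = -(csumv P Q v) := by
      unfold trc
      rw [h2, h3]
      ring
    unfold tE
    rw [if_pos ⟨h6, hDv⟩, h4]
    have h5 : (-(csumv P Q v : ℂ) * ((Real.sqrt (Pool.Agent.H921R2.TatePole.nm v) : ℝ) : ℂ)⁻¹) =
        ((-(csumv P Q v : ℝ) * (Real.sqrt (Pool.Agent.H921R2.TatePole.nm v))⁻¹ : ℝ) : ℂ) := by
      push_cast
      rfl
    rw [h5, Complex.ofReal_re]
    push_cast
    rfl
  have heq : ∀ᶠ v in cofinite,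
      (trc M v : ℝ) * (trc M' v : ℝ) / (Ideal.absNorm v.asIdeal : ℝ) =
        (tE P Q v).re * (tE P' Q' v).re := by
    filter_upwards [hgood] with v hv
    rw [key hl hP hQ hM v hv.1 hv.2.1, key hl' hP' hQ' hM' v hv.1 hv.2.2]
    have h1 : (0 : ℝ) ≤ (Ideal.absNorm v.asIdeal : ℝ) := Nat.cast_nonneg _
    have h2 : (Real.sqrt (Ideal.absNorm v.asIdeal : ℝ))⁻¹ *
        (Real.sqrt (Ideal.absNorm v.asIdeal : ℝ))⁻¹ = ((Ideal.absNorm v.asIdeal : ℝ))⁻¹ := by
      rw [← mul_inv, Real.mul_self_sqrt h1]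
    rw [div_eq_mul_inv, ← h2]
    ring
  have hb : ∀ v, |(tE P Q v).re * (tE P' Q' v).re| ≤ 2 * 2 := fun v => by
    rw [abs_mul]
    exact mul_le_mul ((Complex.abs_re_le_norm _).trans (norm_tE P Q v))
      ((Complex.abs_re_le_norm _).trans (norm_tE P' Q' v)) (abs_nonneg _) (by norm_num)
  obtain ⟨C', hC'⟩ := bd_of_cofinite (f := fun v : HeightOneSpectrum (𝓞 K) =>
    (trc M v : ℝ) * (trc M' v : ℝ) / (Ideal.absNorm v.asIdeal : ℝ)) (B := 2 * 2) (by
      filter_upwards [heq] with v hv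
      rw [hv]
      exact hb v)
  exact mean_congr hC' hb heq (Pool.Agent.W353.ST.hasMean_real hC' h)

end

end Pool.Agent.W353.SE
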