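import Pool.Agent.W353.SE.Fam

/-! Families of elliptic curves with pairwise uncorrelated traces: the inequality for class functions. -/

set_option autoImplicit false

namespace Pool.Agent.W353.SE

open Complex Filter Topology NumberField IsDedekindDomain
  Pool.Agent.W401.Cheb Pool.Agent.W540.BE Pool.Agent.W353.L1 Pool.Agent.W353.NF
open Pool.Agent.W353.AB (Sy syE tE norm_tE)
open Pool.Agent.H341R2 (lam)
open Pool.Agent.H341R2.EC (IsMinAt trc)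

section
variable {K : Type} [Field K] [NumberField K]

theorem fam_main {ι : Type} [Fintype ι] [DecidableEq ι] {P Q : ι → 𝓞 K}
    (horth : ∀ i j, Tendsto (fun ε : ℝ =>
      (EP (nm K) ε fun v => (tE (P i) (Q i) v).re * (tE (P j) (Q j) v).re) / lam ε) (𝓝[>] 0)
      (𝓝 (if i = j then 1 else 0)))
    (U : Subgroup (GK K)) [U.Normal] (hU : IsOpen (U : Set (GK K)))
    (ψ : GK K → ℝ) (hψU : ∀ g, ∀ u ∈ U, ψ (g * u) = ψ g)
    (hc : ∀ g ρ, ψ (ρ * g * ρ⁻¹) = ψ g) (hi : ∀ g, ψ g⁻¹ = ψ g)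
    (σ : HeightOneSpectrum (𝓞 K) → GK K) (hσ : ∀ v, IsFrob v (σ v)) (τ : ℝ)
    (X : ι → ℝ → ℝ)
    (hX : ∀ i, SzH (TT (syE (P i) (Q i))) (fun v => ψ (σ v) * cz τ v) (X i))
    (η : ℝ) (hη : 0 < η) : ∀ᶠ ε : ℝ in 𝓝[>] 0, ∑ i, X i ε ^ 2 ≤
      wt τ * (avR U fun q => ψ q.out ^ 2) + η := by
  have hfi : Finite (GK K ⧸ U) := Subgroup.quotient_finite_of_isOpen _ hU
  obtain ⟨b, hb⟩ := cls_bd U ψ hψU
  have hb0 : 0 ≤ b := (abs_nonneg _).trans (hb 1)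
  have hT : ∀ i v, |(fun i v => (tE (P i) (Q i) v).re) i v| ≤ 2 := fun i v =>
    (Complex.abs_re_le_norm _).trans (norm_tE (P i) (Q i) v)
  have hR : ∀ v, |(fun v => ψ (σ v) * cz τ v) v| ≤ b * 1 := fun v => by
    change |ψ (σ v) * cz τ v| ≤ b * 1
    rw [abs_mul]
    exact mul_le_mul (hb _) (abs_cz _ _) (abs_nonneg _) hb0
  have hm := mean_cls U hU ψ hψU hc hi σ hσ τ
  have hs : ∀ i, Tendsto (fun ε : ℝ => EP (nm K) ε (fun v => (fun i v => (tE (P i) (Q i) v).re) i v *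
      (fun v => ψ (σ v) * cz τ v) v) / lam ε - X i ε) (𝓝[>] 0) (𝓝 0) :=
    fun i => size_lim hb σ τ (X i) (hX i)
  exact bessel_fam hT horth hR hm hs hη

/-- correlations of a family -/
theorem fam_orth {ι : Type} [DecidableEq ι] {E : ι → WeierstrassCurve K} {l P Q : ι → 𝓞 K}
    (hl : ∀ i, l i ≠ 0) (hP : ∀ i, (P i : K) = (l i : K) ^ 4 * (E i).c₄)
    (hQ : ∀ i, (Q i : K) = (l i : K) ^ 6 * (E i).c₆) (hD : ∀ i, P i ^ 3 - Q i ^ 2 ≠ 0)
    {M : ι → HeightOneSpectrum (𝓞 K) → WeierstrassCurve (𝓞 K)}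
    (hM : ∀ i v, IsMinAt (E i) v (M i v))
    (h1 : ∀ i, Pool.Agent.W353.ST.HasMean (fun v => (((trc (M i) v : ℝ) * (trc (M i) v : ℝ) /
        (Ideal.absNorm v.asIdeal : ℝ) : ℝ) : ℂ)) 1)
    (h0 : ∀ i j, i ≠ j → Pool.Agent.W353.ST.HasMean (fun v =>
      (((trc (M i) v : ℝ) * (trc (M j) v : ℝ) / (Ideal.absNorm v.asIdeal : ℝ) : ℝ) : ℂ)) 0)
    (i j : ι) : Tendsto (fun ε : ℝ =>
      (EP (nm K) ε fun v => (tE (P i) (Q i) v).re * (tE (P j) (Q j) v).re) / lam ε) (𝓝[>] 0)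
      (𝓝 (if i = j then 1 else 0)) := by
  refine corr_min (hl i) (hP i) (hQ i) (hD i) (hl j) (hP j) (hQ j) (hD j) (hM i) (hM j) ?_
  by_cases h : i = j
  · subst h
    rw [if_pos rfl, Complex.ofReal_one]
    exact h1 i
  · rw [if_neg h, Complex.ofReal_zero]
    exact h0 i j h

end

end Pool.Agent.W353.SE
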