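import Pool.Agent.W353.SE.Fam2
import Pool.Agent.W353.L1.Pairs

/-! Several heights at once. -/

set_option autoImplicit false

namespace Pool.Agent.W353.SE

open Complex Filter Topology NumberField IsDedekindDomain
  Pool.Agent.W401.Cheb Pool.Agent.W540.BE Pool.Agent.W353.L1 Pool.Agent.W353.NF
open Pool.Agent.W353.AB (Sy syE tE norm_tE)
open Pool.Agent.H341R2 (lam)

section
variable {K : Type} [Field K] [NumberField K]

/-- products of real class functions at different heights have mean value zero -/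
theorem mean_hts (U : Subgroup (GK K)) [U.Normal] (hU : IsOpen (U : Set (GK K)))
    [Finite (GK K ⧸ U)] (φ φ' : GK K → ℝ) (hφU : ∀ σ, ∀ u ∈ U, φ (σ * u) = φ σ)
    (hc : ∀ σ ρ, φ (ρ * σ * ρ⁻¹) = φ σ) (hi : ∀ σ, φ σ⁻¹ = φ σ)
    (hφU' : ∀ σ, ∀ u ∈ U, φ' (σ * u) = φ' σ)
    (hc' : ∀ σ ρ, φ' (ρ * σ * ρ⁻¹) = φ' σ) (hi' : ∀ σ, φ' σ⁻¹ = φ' σ)
    (σ : HeightOneSpectrum (𝓞 K) → GK K) (hσ : ∀ v, IsFrob v (σ v)) {s t : ℝ}
    (h1 : s + t ≠ 0) (h2 : s - t ≠ 0) :
    Tendsto (fun ε : ℝ => (EP (nm K) ε fun v => (φ (σ v) * cz s v) * (φ' (σ v) * cz t v)) / lam ε)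
      (𝓝[>] 0) (𝓝 0) := by
  have h := ((toCF U φ hφU hc hi).has_mul_ne hU σ hσ (toCF U φ' hφU' hc' hi') h1 h2).2
  refine h.congr fun ε => ?_
  congr 2
  funext v
  have e1 : (toCF U φ hφU hc hi).R s σ v = φ (σ v) * cz s v := by
    unfold CF.R
    rw [toCF_mk, Complex.re_ofReal_mul]
    rfl
  have e2 : (toCF U φ' hφU' hc' hi').R t σ v = φ' (σ v) * cz t v := by
    unfold CF.R
    rw [toCF_mk, Complex.re_ofReal_mul]
    rfl
  rw [e1, e2]

/-- **Several heights.** -/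
theorem hts_main {J : Type} [Fintype J] [DecidableEq J] {P Q : 𝓞 K}
    (hone : Tendsto (fun ε : ℝ => (EP (nm K) ε fun v => (tE P Q v).re ^ 2) / lam ε) (𝓝[>] 0)
      (𝓝 1))
    (U : Subgroup (GK K)) [U.Normal] (hU : IsOpen (U : Set (GK K)))
    (ψ : J → GK K → ℝ) (hψU : ∀ j g, ∀ u ∈ U, ψ j (g * u) = ψ j g)
    (hc : ∀ j g ρ, ψ j (ρ * g * ρ⁻¹) = ψ j g) (hi : ∀ j g, ψ j g⁻¹ = ψ j g)
    (σ : HeightOneSpectrum (𝓞 K) → GK K) (hσ : ∀ v, IsFrob v (σ v)) (τ : J → ℝ)
    (h0 : ∀ j, 0 ≤ τ j) (hinj : Function.Injective τ)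
    (X : J → ℝ → ℝ)
    (hX : ∀ j, SzH (TT (syE P Q)) (fun v => ψ j (σ v) * cz (τ j) v) (X j))
    (hpos : ∀ j, 0 < avR U fun q => ψ j q.out ^ 2)
    (η : ℝ) (hη : 0 < η) : ∀ᶠ ε : ℝ in 𝓝[>] 0,
      ∑ j, X j ε ^ 2 / (wt (τ j) * avR U fun q => ψ j q.out ^ 2) ≤ 1 + η := by
  have hfi : Finite (GK K ⧸ U) := Subgroup.quotient_finite_of_isOpen _ hU
  set g : J → ℝ := fun j => wt (τ j) * avR U fun q => ψ j q.out ^ 2 with hg
  have hg0 : ∀ j, 0 < g j := fun j => mul_pos (wt_pos _) (hpos j)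
  set s : J → ℝ := fun j => Real.sqrt (g j) with hs
  have hs0 : ∀ j, 0 < s j := fun j => Real.sqrt_pos.2 (hg0 j)
  have hssq : ∀ j, s j ^ 2 = g j := fun j => Real.sq_sqrt (hg0 j).le
  choose b hb using fun j => cls_bd U (ψ j) (hψU j)
  have hb0 : ∀ j, 0 ≤ b j := fun j => (abs_nonneg _).trans (hb j 1)
  set a : ℝ := ∑ j, b j / s j * 1 with ha
  set T : J → HeightOneSpectrum (𝓞 K) → ℝ := fun j v => (ψ j (σ v) / s j) * cz (τ j) v with hTd
  have hφU : ∀ j, ∀ h, ∀ u ∈ U, (fun h => ψ j h / s j) (h * u) = (fun h => ψ j h / s j) h := by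
    intro j h u hu
    simp only
    rw [hψU j h u hu]
  have hφc : ∀ j, ∀ h ρ, (fun h => ψ j h / s j) (ρ * h * ρ⁻¹) = (fun h => ψ j h / s j) h := by
    intro j h ρ
    simp only
    rw [hc]
  have hφi : ∀ j, ∀ h, (fun h => ψ j h / s j) h⁻¹ = (fun h => ψ j h / s j) h := by
    intro j h
    simp only
    rw [hi]
  have hT : ∀ j v, |T j v| ≤ a := by
    intro j v
    have h1 : |T j v| ≤ b j / s j * 1 := by
      rw [hTd]
      simp only
      rw [abs_mul]
      refine mul_le_mul ?_ (abs_cz _ _) (abs_nonneg _) (div_nonneg (hb0 j) (hs0 j).le)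
      rw [abs_div, abs_of_pos (hs0 j)]
      exact div_le_div_of_nonneg_right (hb j _) (hs0 j).le
    refine h1.trans ?_
    rw [ha]
    exact Finset.single_le_sum (f := fun j => b j / s j * 1)
      (fun i _ => mul_nonneg (div_nonneg (hb0 i) (hs0 i).le) zero_le_one) (Finset.mem_univ j)
  have horth : ∀ i j, Tendsto (fun ε : ℝ => (EP (nm K) ε fun v => T i v * T j v) / lam ε) (𝓝[>] 0)
      (𝓝 (if i = j then 1 else 0)) := by
    intro i j
    by_cases h : i = j
    · subst h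
      rw [if_pos rfl]
      have h1 := mean_cls U hU (fun h => ψ i h / s i) (hφU i) (hφc i) (hφi i) σ hσ (τ i)
      have e2 : (fun q : GK K ⧸ U => (fun h => ψ i h / s i) q.out ^ 2) =
          fun q => (g i)⁻¹ * ψ i q.out ^ 2 := by
        funext q
        simp only
        rw [div_pow, hssq]
        ring
      rw [e2, avR_const_mul] at h1
      have e3 : wt (τ i) * ((g i)⁻¹ * avR U fun q => ψ i q.out ^ 2) = 1 := by
        have h2 : wt (τ i) * ((g i)⁻¹ * avR U fun q => ψ i q.out ^ 2) = (g i)⁻¹ * g i := by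
          rw [hg]
          ring
        rw [h2, inv_mul_cancel₀ (hg0 i).ne']
      rw [e3] at h1
      refine h1.congr fun ε => ?_
      congr 2
      funext v
      exact sq _
    · rw [if_neg h]
      refine mean_hts U hU (fun h => ψ i h / s i) (fun h => ψ j h / s j) (hφU i) (hφc i) (hφi i)
        (hφU j) (hφc j) (hφi j) σ hσ ?_ ?_
      · intro h3
        have h4 : τ i = 0 := le_antisymm (by linarith [h0 i, h0 j]) (h0 i)
        have h5 : τ j = 0 := by linarith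
        exact h (hinj (h4.trans h5.symm))
      · intro h3
        exact h (hinj (sub_eq_zero.1 h3))
  have hR : ∀ v, |(fun v => (tE P Q v).re) v| ≤ 2 := fun v =>
    (Complex.abs_re_le_norm _).trans (norm_tE P Q v)
  have hXl : ∀ j, Tendsto (fun ε : ℝ => EP (nm K) ε (fun v => T j v * (fun v => (tE P Q v).re) v) /
      lam ε - (fun j ε => (s j)⁻¹ * X j ε) j ε) (𝓝[>] 0) (𝓝 0) := by
    intro j
    have h1 := (size_lim (hb j) σ (τ j) (X j) (hX j)).const_mul (s j)⁻¹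
    rw [mul_zero] at h1
    refine h1.congr fun ε => ?_
    have e1 : (fun v => T j v * (fun v => (tE P Q v).re) v) =
        fun v => (s j)⁻¹ * ((tE P Q v).re * (ψ j (σ v) * cz (τ j) v)) := by
      funext v
      rw [hTd]
      simp only
      ring
    rw [e1, EP_const_mul]
    ring
  have hfin := bessel_fam hT horth hR hone hXl hη
  filter_upwards [hfin] with ε hε
  refine le_trans (le_of_eq (Finset.sum_congr rfl fun j _ => ?_)) hε
  rw [mul_pow, inv_pow, hssq, div_eq_inv_mul]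

end

end Pool.Agent.W353.SE
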