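import Pool.Agent.W353.SE.Core
import Pool.Agent.W385.GA.Orders

/-! Families of uncorrelated systems and Artin representations. -/

set_option autoImplicit false

namespace Pool.Agent.W353.SE

open Complex Filter Topology NumberField IsDedekindDomain ComplexConjugate
  Pool.Agent.W401.Cheb Pool.Agent.W540.BE Pool.Agent.W385.GA
open Pool.Agent.H341R2 (lam lam_tendsto)

section
variable {K : Type} [Field K] [NumberField K]

/-- **Bessel's inequality, abstract form.** -/
theorem bessel_abs {ι : Type} [Fintype ι] [DecidableEq ι]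
    {α : ι → HeightOneSpectrum (𝓞 K) → ℝ} {β : ι → ι → HeightOneSpectrum (𝓞 K) → ℝ}
    {γ : HeightOneSpectrum (𝓞 K) → ℝ} {Ba Bb Bc : ℝ}
    (hα : ∀ i v, |α i v| ≤ Ba) (hβ : ∀ i j v, |β i j v| ≤ Bb) (hγ : ∀ v, |γ v| ≤ Bc)
    (hpt : ∀ v, ∀ x : ι → ℝ, 0 ≤ (γ v + ∑ i, (-2 * x i) * α i v) +
      ∑ i, ∑ j, (x i * x j) * β i j v)
    (horth : ∀ i j, Tendsto (fun ε : ℝ => (EP (nm K) ε (β i j)) / lam ε) (𝓝[>] 0)
      (𝓝 (if i = j then 1 else 0)))
    {g : ℝ} (hg : Tendsto (fun ε : ℝ => (EP (nm K) ε γ) / lam ε) (𝓝[>] 0) (𝓝 g))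
    {X : ι → ℝ → ℝ}
    (hX : ∀ i, Tendsto (fun ε : ℝ => EP (nm K) ε (α i) / lam ε - X i ε) (𝓝[>] 0) (𝓝 0))
    {η : ℝ} (hη : 0 < η) :
    ∀ᶠ ε : ℝ in 𝓝[>] 0, ∑ i, X i ε ^ 2 ≤ g + η := by
  have hN : NormSys (nm K) := normSys
  set x : ι → ℝ → ℝ := fun i ε => EP (nm K) ε (α i) / lam ε with hx
  set G : ι → ι → ℝ → ℝ := fun i j ε => (EP (nm K) ε (β i j)) / lam ε with hG
  have hxb : ∀ i, ∀ᶠ ε : ℝ in 𝓝[>] 0, |x i ε| ≤ Ba * 2 := by
    intro i
    filter_upwards [(EP_one K).eventually_lt_const (by norm_num : (1 : ℝ) < 2),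
      self_mem_nhdsWithin, lam_tendsto.eventually_gt_atTop 0] with ε e1 e2 e3
    have hε : (0 : ℝ) < ε := e2
    have hab : 0 ≤ Ba := (abs_nonneg _).trans (hα i (vx0 K))
    rw [hx]
    simp only
    rw [abs_div, abs_of_pos e3, div_le_iff₀ e3]
    have e4 := Pool.Agent.W353.L1.EP_abs_le (F := K) (φ := α i) (ψ := fun _ => Ba * 1)
      (B := Ba)
      (fun v => by rw [mul_one, abs_of_nonneg hab]) (fun v => by rw [mul_one]; exact hα i v) hε
    rw [EP_const_mul] at e4
    rw [div_lt_iff₀ e3] at e1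
    calc |EP (nm K) ε (α i)| ≤ Ba * EP (nm K) ε fun _ => 1 := e4
      _ ≤ Ba * (2 * lam ε) := mul_le_mul_of_nonneg_left e1.le hab
      _ = Ba * 2 * lam ε := by ring
  have hbes : ∀ᶠ ε : ℝ in 𝓝[>] 0, ∑ i, x i ε ^ 2 ≤ (EP (nm K) ε γ) / lam ε +
      ∑ i, ∑ j, x i ε * x j ε * (G i j ε - if i = j then 1 else 0) := by
    filter_upwards [self_mem_nhdsWithin, lam_tendsto.eventually_gt_atTop 0] with ε e2 e3
    have hε : (0 : ℝ) < ε := e2
    have h1 : 0 ≤ EP (nm K) ε fun v => (γ v + ∑ i, (-2 * x i ε) * α i v) +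
          ∑ i, ∑ j, (x i ε * x j ε) * β i j v := by
      unfold EP
      exact tsum_nonneg fun v => mul_nonneg (hpt v fun i => x i ε) (wP_nonneg ε v)
    have hc1 : ∀ i v, |(-2 * x i ε) * α i v| ≤ |-2 * x i ε| * Ba := fun i v => by
      rw [abs_mul]
      exact mul_le_mul_of_nonneg_left (hα i v) (abs_nonneg _)
    have hc2 : ∀ i j v, |(x i ε * x j ε) * β i j v| ≤ |x i ε * x j ε| * Bb :=
      fun i j v => by
        rw [abs_mul]
        exact mul_le_mul_of_nonneg_left (hβ i j v) (abs_nonneg _)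
    have hc3 : ∀ v, |∑ i, (-2 * x i ε) * α i v| ≤ ∑ i, |-2 * x i ε| * Ba := fun v =>
      (Finset.abs_sum_le_sum_abs _ _).trans (Finset.sum_le_sum fun i _ => hc1 i v)
    have hc4 : ∀ i v, |∑ j, (x i ε * x j ε) * β i j v| ≤
        ∑ j, |x i ε * x j ε| * Bb := fun i v =>
      (Finset.abs_sum_le_sum_abs _ _).trans (Finset.sum_le_sum fun j _ => hc2 i j v)
    have hc5 : ∀ v, |∑ i, ∑ j, (x i ε * x j ε) * β i j v| ≤
        ∑ i, ∑ j, |x i ε * x j ε| * Bb := fun v =>
      (Finset.abs_sum_le_sum_abs _ _).trans (Finset.sum_le_sum fun i _ => hc4 i v)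
    have hc6 : ∀ v, |γ v + ∑ i, (-2 * x i ε) * α i v| ≤
        Bc + ∑ i, |-2 * x i ε| * Ba := fun v =>
      (abs_add_le _ _).trans (add_le_add (hγ v) (hc3 v))
    rw [EP_add hN hε hc6 hc5, EP_add hN hε hγ hc3,
      EP_sum hN hε Finset.univ _ _ (fun i _ => hc1 i),
      EP_sum hN hε Finset.univ _ _ (fun i _ => hc4 i)] at h1
    have h3 : ∀ i, (EP (nm K) ε fun v => (-2 * x i ε) * α i v) =
        -2 * x i ε * (x i ε * lam ε) := by
      intro i
      rw [EP_const_mul]
      congr 1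
      rw [hx]
      simp only
      rw [div_mul_cancel₀ _ e3.ne']
    have h4 : ∀ i, (EP (nm K) ε fun v => ∑ j, (x i ε * x j ε) * β i j v) =
        ∑ j, x i ε * x j ε * (G i j ε * lam ε) := by
      intro i
      rw [EP_sum hN hε Finset.univ _ _ (fun j _ => hc2 i j)]
      refine Finset.sum_congr rfl fun j _ => ?_
      rw [EP_const_mul]
      congr 1
      rw [hG]
      simp only
      rw [div_mul_cancel₀ _ e3.ne']
    rw [Finset.sum_congr rfl fun i _ => h3 i, Finset.sum_congr rfl fun i _ => h4 i] at h1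
    have h5 : 0 ≤ (EP (nm K) ε γ) / lam ε + ∑ i, -2 * x i ε * x i ε +
        ∑ i, ∑ j, x i ε * x j ε * G i j ε := by
      have h6 := div_nonneg h1 e3.le
      have h7 : ((EP (nm K) ε γ) + ∑ i, -2 * x i ε * (x i ε * lam ε) +
          ∑ i, ∑ j, x i ε * x j ε * (G i j ε * lam ε)) / lam ε =
          (EP (nm K) ε γ) / lam ε + ∑ i, -2 * x i ε * x i ε +
          ∑ i, ∑ j, x i ε * x j ε * G i j ε := by
        rw [add_div, add_div, Finset.sum_div, Finset.sum_div]
        congr 1
        · congr 1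
          refine Finset.sum_congr rfl fun i _ => ?_
          field_simp
        · refine Finset.sum_congr rfl fun i _ => ?_
          rw [Finset.sum_div]
          refine Finset.sum_congr rfl fun j _ => ?_
          field_simp
      rw [h7] at h6
      exact h6
    have h8 : ∑ i, ∑ j, x i ε * x j ε * (G i j ε - if i = j then 1 else 0) =
        ∑ i, ∑ j, x i ε * x j ε * G i j ε - ∑ i, x i ε ^ 2 := by
      rw [← Finset.sum_sub_distrib]
      refine Finset.sum_congr rfl fun i _ => ?_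
      have e4 : ∀ j, x i ε * x j ε * (G i j ε - if i = j then 1 else 0) =
          x i ε * x j ε * G i j ε - if i = j then x i ε * x j ε else 0 := by
        intro j
        split_ifs <;> ring
      rw [Finset.sum_congr rfl fun j _ => e4 j, Finset.sum_sub_distrib, Finset.sum_ite_eq,
        if_pos (Finset.mem_univ _)]
      ring
    have h9 : ∑ i, -2 * x i ε * x i ε = -2 * ∑ i, x i ε ^ 2 := by
      rw [Finset.mul_sum]
      exact Finset.sum_congr rfl fun i _ => by ring
    rw [h9] at h5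
    rw [h8]
    linarith
  have herr : Tendsto (fun ε : ℝ => (Ba * 2) * (Ba * 2) *
      ∑ i, ∑ j, |G i j ε - if i = j then 1 else 0|) (𝓝[>] 0) (𝓝 0) := by
    have h1 : Tendsto (fun ε : ℝ => ∑ i, ∑ j, |G i j ε - if i = j then 1 else 0|) (𝓝[>] 0)
        (𝓝 (∑ i : ι, ∑ j : ι, (0 : ℝ))) := by
      refine tendsto_finsetSum _ fun i _ => tendsto_finsetSum _ fun j _ => ?_
      have h2 := ((horth i j).sub_const (if i = j then (1 : ℝ) else 0)).abs
      rw [sub_self, abs_zero] at h2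
      exact h2
    have h3 := h1.const_mul ((Ba * 2) * (Ba * 2))
    simpa using h3
  have hdiff : Tendsto (fun ε : ℝ => ∑ i, |x i ε - X i ε| * (|x i ε - X i ε| + 2 * (Ba * 2)))
      (𝓝[>] 0) (𝓝 0) := by
    have h1 : Tendsto (fun ε : ℝ => ∑ i, |x i ε - X i ε| *
        (|x i ε - X i ε| + 2 * (Ba * 2))) (𝓝[>] 0) (𝓝 (∑ i : ι, |(0 : ℝ)| *
          (|(0 : ℝ)| + 2 * (Ba * 2)))) :=
      tendsto_finsetSum _ fun i _ => (hX i).abs.mul ((hX i).abs.add_const _)
    simpa using h1
  filter_upwards [hbes, Filter.eventually_all.2 hxb, hg.eventually_lt_const (by linarith :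
    g < g + η / 3), herr.eventually_lt_const (by linarith : (0 : ℝ) < η / 3),
    hdiff.eventually_lt_const (by linarith : (0 : ℝ) < η / 3)] with ε e1 e2 e3 e4 e5
  have h1 : ∑ i, ∑ j, x i ε * x j ε * (G i j ε - if i = j then 1 else 0) ≤
      (Ba * 2) * (Ba * 2) * ∑ i, ∑ j, |G i j ε - if i = j then 1 else 0| := by
    rw [Finset.mul_sum]
    refine Finset.sum_le_sum fun i _ => ?_
    rw [Finset.mul_sum]
    refine Finset.sum_le_sum fun j _ => ?_
    refine (le_abs_self _).trans ?_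
    rw [abs_mul, abs_mul]
    exact mul_le_mul_of_nonneg_right (mul_le_mul (e2 i) (e2 j) (abs_nonneg _)
      ((abs_nonneg _).trans (e2 i))) (abs_nonneg _)
  have h2 : ∑ i, X i ε ^ 2 ≤ ∑ i, x i ε ^ 2 +
      ∑ i, |x i ε - X i ε| * (|x i ε - X i ε| + 2 * (Ba * 2)) := by
    rw [← Finset.sum_add_distrib]
    refine Finset.sum_le_sum fun i _ => ?_
    have h3 : X i ε ^ 2 - x i ε ^ 2 = (x i ε - X i ε) * ((x i ε - X i ε) - 2 * x i ε) := by ring
    have h4 : (x i ε - X i ε) * ((x i ε - X i ε) - 2 * x i ε) ≤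
        |x i ε - X i ε| * (|x i ε - X i ε| + 2 * (Ba * 2)) := by
      refine (le_abs_self _).trans ?_
      rw [abs_mul]
      refine mul_le_mul_of_nonneg_left ((abs_sub _ _).trans (add_le_add le_rfl ?_)) (abs_nonneg _)
      rw [abs_mul, abs_two]
      exact mul_le_mul_of_nonneg_left (e2 i) two_pos.le
    linarith
  linarith

section
variable {J : Type} [Fintype J] (A : J → ArtinRep K) (τ : J → ℝ) (b : J → ℝ)
  (frob : HeightOneSpectrum (𝓞 K) → GK K)

open Classical in
/-- the quadratic form -/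
noncomputable def gq : ℝ :=
  ∑ j, ∑ k, b j * b k * (if τ j = τ k then (homDim (A j) (A k) : ℝ) else 0)

/-- the combined twisting function -/
noncomputable def VW (v : HeightOneSpectrum (𝓞 K)) : ℂ := ∑ j, (b j : ℂ) * vv frob (A j) (τ j) v

theorem VW_bd (v : HeightOneSpectrum (𝓞 K)) : ‖VW A τ b frob v‖ ≤ ∑ j, |b j| * (A j).n := by
  unfold VW
  refine (norm_sum_le _ _).trans (Finset.sum_le_sum fun k _ => ?_)
  rw [norm_mul, Complex.norm_real, Real.norm_eq_abs]
  exact mul_le_mul_of_nonneg_left (norm_vv_le _ _ _) (abs_nonneg _)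

theorem VW_gram (hfrob : ∀ v, IsFrob v (frob v)) :
    Tendsto (fun ε : ℝ => (EP (nm K) ε fun v =>
      (VW A τ b frob v * conj (VW A τ b frob v)).re) / lam ε) (𝓝[>] 0) (𝓝 (gq A τ b)) := by
  classical
  have h1 : Tendsto (fun ε : ℝ => ∑ k, ∑ l, b k * b l *
      ((EP (nm K) ε fun v => (vv frob (A k) (τ k) v * conj (vv frob (A l) (τ l) v)).re) / lam ε))
      (𝓝[>] 0) (𝓝 (gq A τ b)) := by
    unfold gq
    refine tendsto_finsetSum _ fun k _ => tendsto_finsetSum _ fun l _ => ?_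
    have h2 := gram_lim hfrob (A k) (A l) (τ k) (τ l)
    rw [homDim_symm] at h2
    have e : (if τ k = τ l then (homDim (A k) (A l) : ℝ) else 0) =
        @ite ℝ (τ k = τ l) (Classical.propDecidable _) (homDim (A k) (A l) : ℝ) 0 := by
      congr
    rw [← e]
    exact h2.const_mul _
  refine h1.congr' ?_
  filter_upwards [self_mem_nhdsWithin] with ε hε
  have hε' : (0 : ℝ) < ε := hε
  have hexp : (fun v => (VW A τ b frob v * conj (VW A τ b frob v)).re) = fun v =>
      ∑ k, ∑ l, b k * b l * (vv frob (A k) (τ k) v * conj (vv frob (A l) (τ l) v)).re := by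
    funext v
    unfold VW
    rw [map_sum, Finset.sum_mul_sum, Complex.re_sum]
    refine Finset.sum_congr rfl fun k _ => ?_
    rw [Complex.re_sum]
    refine Finset.sum_congr rfl fun l _ => ?_
    rw [map_mul, Complex.conj_ofReal]
    have : (b k : ℂ) * vv frob (A k) (τ k) v * ((b l : ℂ) * conj (vv frob (A l) (τ l) v)) =
        ((b k * b l : ℝ) : ℂ) * (vv frob (A k) (τ k) v * conj (vv frob (A l) (τ l) v)) := by
      push_cast
      ring
    rw [this, Complex.re_ofReal_mul]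
  have hb : ∀ k l v, |(vv frob (A k) (τ k) v * conj (vv frob (A l) (τ l) v)).re| ≤
      (A k).n * (A l).n := by
    intro k l v
    refine (Complex.abs_re_le_norm _).trans ?_
    rw [norm_mul, Complex.norm_conj]
    exact mul_le_mul (norm_vv_le _ _ _) (norm_vv_le _ _ _) (norm_nonneg _) (Nat.cast_nonneg _)
  have hb' : ∀ k l v, |b k * b l * (vv frob (A k) (τ k) v * conj (vv frob (A l) (τ l) v)).re| ≤
      |b k * b l| * ((A k).n * (A l).n) := fun k l v => by
    rw [abs_mul]
    exact mul_le_mul_of_nonneg_left (hb k l v) (abs_nonneg _)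
  have hb2 : ∀ k v, |∑ l, b k * b l *
      (vv frob (A k) (τ k) v * conj (vv frob (A l) (τ l) v)).re| ≤
      ∑ l, |b k * b l| * ((A k).n * (A l).n) := fun k v =>
    (Finset.abs_sum_le_sum_abs _ _).trans (Finset.sum_le_sum fun l _ => hb' k l v)
  rw [hexp, EP_sum normSys hε' Finset.univ _ _ (fun k _ => hb2 k), Finset.sum_div]
  refine Finset.sum_congr rfl fun k _ => ?_
  rw [EP_sum normSys hε' Finset.univ _ _ (fun l _ => hb' k l), Finset.sum_div]
  refine Finset.sum_congr rfl fun l _ => ?_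
  rw [EP_const_mul, mul_div_assoc]

end

theorem re_sq_nonneg (z : ℂ) : 0 ≤ (z * conj z).re := by
  rw [Complex.mul_conj, Complex.ofReal_re]
  exact Complex.normSq_nonneg z

theorem expand_sq {ι : Type} [Fintype ι] (R : ℂ) (T : ι → ℂ) (x : ι → ℝ) :
    ((R - ∑ i, (x i : ℂ) * T i) * conj (R - ∑ i, (x i : ℂ) * T i)).re =
      ((R * conj R).re + ∑ i, (-2 * x i) * (T i * conj R).re) +
        ∑ i, ∑ j, (x i * x j) * (T i * conj (T j)).re := by
  set Z : ℂ := ∑ i, (x i : ℂ) * T i with hZ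
  have h1 : ((R - Z) * conj (R - Z)).re = (R * conj R).re - 2 * (Z * conj R).re +
      (Z * conj Z).re := by
    simp only [map_sub, Complex.mul_re, Complex.sub_re, Complex.sub_im, Complex.conj_re,
      Complex.conj_im]
    ring
  have h2 : (Z * conj R).re = ∑ i, x i * (T i * conj R).re := by
    rw [hZ, Finset.sum_mul, Complex.re_sum]
    refine Finset.sum_congr rfl fun i _ => ?_
    rw [mul_assoc, Complex.re_ofReal_mul]
  have h3 : (Z * conj Z).re = ∑ i, ∑ j, (x i * x j) * (T i * conj (T j)).re := by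
    rw [hZ, map_sum, Finset.sum_mul_sum, Complex.re_sum]
    refine Finset.sum_congr rfl fun i _ => ?_
    rw [Complex.re_sum]
    refine Finset.sum_congr rfl fun j _ => ?_
    rw [map_mul, Complex.conj_ofReal]
    have : (x i : ℂ) * T i * ((x j : ℂ) * conj (T j)) =
        ((x i * x j : ℝ) : ℂ) * (T i * conj (T j)) := by
      push_cast
      ring
    rw [this, Complex.re_ofReal_mul]
  rw [h1, h2, h3, Finset.mul_sum, sub_eq_add_neg, ← Finset.sum_neg_distrib]
  congr 2
  exact Finset.sum_congr rfl fun i _ => by ring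

/-- **Uncorrelated systems and Artin representations.** -/
theorem match_main {ι : Type} [Fintype ι] [DecidableEq ι]
    {T : ι → HeightOneSpectrum (𝓞 K) → ℂ} {a : ℝ} (hT : ∀ i v, ‖T i v‖ ≤ a)
    (horth : ∀ i j, Tendsto (fun ε : ℝ => (EP (nm K) ε fun v => (T i v * conj (T j v)).re) / lam ε)
      (𝓝[>] 0) (𝓝 (if i = j then 1 else 0)))
    {frob : HeightOneSpectrum (𝓞 K) → GK K} (hfrob : ∀ v, IsFrob v (frob v))
    {J : Type} [Fintype J] (A : J → ArtinRep K) (τ : J → ℝ) (b : J → ℝ)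
    (X : ι → J → ℝ → ℝ)
    (hX : ∀ i j, Tendsto (fun ε : ℝ => (EP (nm K) ε fun v =>
      (T i v * conj (vv frob (A j) (τ j) v)).re) / lam ε - X i j ε) (𝓝[>] 0) (𝓝 0))
    {η : ℝ} (hη : 0 < η) :
    ∀ᶠ ε : ℝ in 𝓝[>] 0, ∑ i, (∑ j, b j * X i j ε) ^ 2 ≤ gq A τ b + η := by
  set c : ℝ := ∑ j, |b j| * (A j).n with hc
  have hc0 : 0 ≤ c := Finset.sum_nonneg fun j _ => mul_nonneg (abs_nonneg _) (Nat.cast_nonneg _)
  have hR : ∀ v, ‖VW A τ b frob v‖ ≤ c := VW_bd A τ b frob
  have hXl : ∀ i, Tendsto (fun ε : ℝ => EP (nm K) ε (fun v =>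
      (T i v * conj (VW A τ b frob v)).re) / lam ε - (fun i ε => ∑ j, b j * X i j ε) i ε)
      (𝓝[>] 0) (𝓝 0) := by
    intro i
    have h5 : Tendsto (fun ε : ℝ => ∑ j, b j * ((EP (nm K) ε fun v =>
        (T i v * conj (vv frob (A j) (τ j) v)).re) / lam ε - X i j ε)) (𝓝[>] 0)
        (𝓝 (∑ j, b j * 0)) := tendsto_finsetSum _ fun j _ => (hX i j).const_mul (b j)
    simp only [mul_zero, Finset.sum_const_zero] at h5
    refine h5.congr' ?_
    filter_upwards [self_mem_nhdsWithin] with ε hε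
    have hε' : (0 : ℝ) < ε := hε
    have hexp : (fun v => (T i v * conj (VW A τ b frob v)).re) = fun v =>
        ∑ j, b j * (T i v * conj (vv frob (A j) (τ j) v)).re := by
      funext v
      unfold VW
      rw [map_sum, Finset.mul_sum, Complex.re_sum]
      refine Finset.sum_congr rfl fun k _ => ?_
      rw [map_mul, Complex.conj_ofReal]
      have : T i v * ((b k : ℂ) * conj (vv frob (A k) (τ k) v)) =
          (b k : ℂ) * (T i v * conj (vv frob (A k) (τ k) v)) := by ring
      rw [this, Complex.re_ofReal_mul]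
    have hb' : ∀ j v, |b j * (T i v * conj (vv frob (A j) (τ j) v)).re| ≤
        |b j| * (a * (A j).n) := fun j v => by
      rw [abs_mul]
      refine mul_le_mul_of_nonneg_left ?_ (abs_nonneg _)
      refine (Complex.abs_re_le_norm _).trans ?_
      rw [norm_mul, Complex.norm_conj]
      exact mul_le_mul (hT i v) (norm_vv_le _ _ _) (norm_nonneg _)
        ((norm_nonneg _).trans (hT i v))
    rw [hexp, EP_sum normSys hε' Finset.univ _ _ (fun j _ => hb' j), Finset.sum_div,
      ← Finset.sum_sub_distrib]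
    refine Finset.sum_congr rfl fun j _ => ?_
    rw [EP_const_mul]
    ring
  refine bessel_abs (α := fun i v => (T i v * conj (VW A τ b frob v)).re)
    (β := fun i j v => (T i v * conj (T j v)).re)
    (γ := fun v => (VW A τ b frob v * conj (VW A τ b frob v)).re)
    (Ba := a * c) (Bb := a * a) (Bc := c * c)
    (fun i v => ?_) (fun i j v => ?_) (fun v => ?_) (fun v x => ?_) horth (VW_gram A τ b frob hfrob)
    hXl hη
  · refine (Complex.abs_re_le_norm _).trans ?_
    rw [norm_mul, Complex.norm_conj]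
    exact mul_le_mul (hT i v) (hR v) (norm_nonneg _) ((norm_nonneg _).trans (hT i v))
  · refine (Complex.abs_re_le_norm _).trans ?_
    rw [norm_mul, Complex.norm_conj]
    exact mul_le_mul (hT i v) (hT j v) (norm_nonneg _) ((norm_nonneg _).trans (hT i v))
  · refine (Complex.abs_re_le_norm _).trans ?_
    rw [norm_mul, Complex.norm_conj]
    exact mul_le_mul (hR v) (hR v) (norm_nonneg _) hc0
  · rw [← expand_sq (VW A τ b frob v) (fun i => T i v) x]
    exact re_sq_nonneg _

end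

end Pool.Agent.W353.SE
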