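import Pool.Agent.W353.SE.Base

/-! The mean square of the number of the fixed embeddings. -/

set_option autoImplicit false

namespace Pool.Agent.W353.SE

open Complex Filter Topology NumberField IsDedekindDomain
  Pool.Agent.W401.Cheb Pool.Agent.W353.L1 Pool.Agent.W353.NF

/-- Burnside's lemma -/
theorem burnside_gen {G Y : Type*} [Group G] [Finite G] [Finite Y] (a : G →* Equiv.Perm Y) :
    ∑ᶠ g : G, ((Nat.card {y // a g y = y} : ℕ) : ℝ) =
      Nat.card (Quot fun x y : Y => ∃ g, a g x = y) * Nat.card G := by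
  classical
  let _ : Fintype G := Fintype.ofFinite G
  let _ : Fintype Y := Fintype.ofFinite Y
  let _ : MulAction G Y := MulAction.compHom Y a
  have hsm : ∀ (g : G) (y : Y), g • y = a g y := fun g y => rfl
  let _ : Fintype (Quotient (MulAction.orbitRel G Y)) := Fintype.ofFinite _
  have h1 := MulAction.sum_card_fixedBy_eq_card_orbits_mul_card_group G Y
  have h2 : Nat.card (Quot fun x y : Y => ∃ g, a g x = y) =
      Fintype.card (Quotient (MulAction.orbitRel G Y)) := by
    rw [← Nat.card_eq_fintype_card]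
    refine Nat.card_congr (Quot.congrRight fun x y => ?_)
    change (∃ g, a g x = y) ↔ x ∈ MulAction.orbit G y
    rw [MulAction.mem_orbit_iff]
    constructor
    · rintro ⟨g, hg⟩
      exact ⟨g⁻¹, by rw [← hg, ← hsm, inv_smul_smul]⟩
    · rintro ⟨g, hg⟩
      exact ⟨g⁻¹, by rw [← hg, ← hsm, inv_smul_smul]⟩
  rw [h2, finsum_eq_sum_of_fintype, Nat.card_eq_fintype_card (α := G), ← Nat.cast_mul, ← h1,
    Nat.cast_sum]
  refine Finset.sum_congr rfl fun g _ => ?_
  rw [Nat.card_eq_fintype_card]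
  congr 1

/-- the diagonal action on the pairs -/
def pairAct {G Y : Type*} [Group G] (a : G →* Equiv.Perm Y) : G →* Equiv.Perm (Y × Y) where
  toFun g := Equiv.prodCongr (a g) (a g)
  map_one' := by
    rw [map_one]
    rfl
  map_mul' g h := by
    rw [map_mul]
    rfl

theorem card_pair {G Y : Type*} [Group G] [Finite Y] (a : G →* Equiv.Perm Y) (g : G) :
    Nat.card {p // pairAct a g p = p} = Nat.card {y // a g y = y} ^ 2 := by
  rw [sq, ← Nat.card_prod]
  refine Nat.card_congr
    { toFun := fun p => (⟨p.1.1, congrArg Prod.fst p.2⟩, ⟨p.1.2, congrArg Prod.snd p.2⟩)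
      invFun := fun q => ⟨(q.1.1, q.2.1), Prod.ext q.1.2 q.2.2⟩
      left_inv := fun p => rfl
      right_inv := fun q => rfl }

section
variable (K F : Type) [Field K] [NumberField K] [Field F] [NumberField F] [Algebra K F]

/-- the number of the orbits on the pairs of embeddings -/
noncomputable def pOrb : ℕ :=
  Nat.card (Quot fun p q : (F →ₐ[K] AlgebraicClosure K) × (F →ₐ[K] AlgebraicClosure K) =>
    ∃ σ : GK K, act K F σ p.1 = q.1 ∧ act K F σ p.2 = q.2)

theorem card_range_pos : (0 : ℝ) < Nat.card (act K F).range := by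
  exact_mod_cast Nat.card_pos

theorem mean_sq_fix : (Nat.card (act K F).range : ℝ)⁻¹ *
    ∑ᶠ g : (act K F).range, ((Nat.card {y // g.1 y = y} : ℕ) : ℝ) ^ 2 = pOrb K F := by
  have h1 := burnside_gen (pairAct (act K F).range.subtype)
  have h2 : ∀ g : (act K F).range,
      ((Nat.card {p // pairAct (act K F).range.subtype g p = p} : ℕ) : ℝ) =
        ((Nat.card {y // g.1 y = y} : ℕ) : ℝ) ^ 2 := by
    intro g
    rw [card_pair]
    push_cast
    rfl
  simp only [h2] at h1
  have h3 : Nat.card (Quot fun x y : (F →ₐ[K] AlgebraicClosure K) × (F →ₐ[K] AlgebraicClosure K) =>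
      ∃ g, pairAct (act K F).range.subtype g x = y) = pOrb K F := by
    unfold pOrb
    refine Nat.card_congr (Quot.congrRight fun x y => ?_)
    constructor
    · rintro ⟨⟨g, σ, hσ⟩, hg⟩
      refine ⟨σ, ?_, ?_⟩
      · rw [hσ]
        exact congrArg Prod.fst hg
      · rw [hσ]
        exact congrArg Prod.snd hg
    · rintro ⟨σ, hσ1, hσ2⟩
      exact ⟨⟨act K F σ, σ, rfl⟩, Prod.ext hσ1 hσ2⟩
  rw [h1, h3]
  have := (card_range_pos K F).ne'
  field_simp

theorem mean_fix : (Nat.card (act K F).range : ℝ)⁻¹ *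
    ∑ᶠ g : (act K F).range, ((Nat.card {y // g.1 y = y} : ℕ) : ℝ) = 1 := by
  have h1 := burnside (G := (act K F).range) (Y := F →ₐ[K] AlgebraicClosure K)
    (act K F).range.subtype (fun i j => by
      obtain ⟨σ, hσ⟩ := act_trans K F i j
      exact ⟨⟨act K F σ, ⟨σ, rfl⟩⟩, hσ⟩)
  have h2 : ∑ᶠ g : (act K F).range, ((Nat.card {y // g.1 y = y} : ℕ) : ℝ) =
      Nat.card (act K F).range := h1
  rw [h2, inv_mul_cancel₀ (card_range_pos K F).ne']

theorem mean_sq_sub : (Nat.card (act K F).range : ℝ)⁻¹ *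
    ∑ᶠ g : (act K F).range, (((Nat.card {y // g.1 y = y} : ℕ) : ℝ) - 1) ^ 2 = pOrb K F - 1 := by
  classical
  have h1 := mean_sq_fix K F
  have h2 := mean_fix K F
  let _ : Fintype (act K F).range := Fintype.ofFinite _
  rw [finsum_eq_sum_of_fintype] at h1 h2 ⊢
  have h3 : ∀ g : (act K F).range, (((Nat.card {y // g.1 y = y} : ℕ) : ℝ) - 1) ^ 2 =
      ((Nat.card {y // g.1 y = y} : ℕ) : ℝ) ^ 2 -
        2 * ((Nat.card {y // g.1 y = y} : ℕ) : ℝ) + 1 := fun g => by ring
  rw [Finset.sum_congr rfl fun g _ => h3 g, Finset.sum_add_distrib, Finset.sum_sub_distrib,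
    ← Finset.mul_sum, mul_add, mul_sub, h1, mul_left_comm, h2, Finset.sum_const, Finset.card_univ,
    nsmul_eq_mul, ← Nat.card_eq_fintype_card, ← mul_assoc (Nat.card (act K F).range : ℝ)⁻¹,
    inv_mul_cancel₀ (card_range_pos K F).ne']
  ring

theorem avR_fix : (avR (act K F).ker fun q => (fixn K F q.out : ℝ) ^ 2) = pOrb K F := by
  have h1 := avR_ker (act K F) fun π => ((Nat.card {y // π y = y} : ℕ) : ℝ) ^ 2
  exact h1.trans (mean_sq_fix K F)

theorem avR_sub : (avR (act K F).ker fun q => ((fixn K F q.out : ℝ) - 1) ^ 2) = pOrb K F - 1 := by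
  have h1 := avR_ker (act K F) fun π => (((Nat.card {y // π y = y} : ℕ) : ℝ) - 1) ^ 2
  exact h1.trans (mean_sq_sub K F)

theorem pOrb_pos : 0 < pOrb K F := by
  have : Nonempty (Quot fun p q : (F →ₐ[K] AlgebraicClosure K) × (F →ₐ[K] AlgebraicClosure K) =>
    ∃ σ : GK K, act K F σ p.1 = q.1 ∧ act K F σ p.2 = q.2) := by
    obtain ⟨i⟩ : Nonempty (F →ₐ[K] AlgebraicClosure K) := ⟨IsAlgClosed.lift⟩
    exact ⟨Quot.mk _ (i, i)⟩
  exact Nat.card_pos

theorem pOrb_one_lt (h : 2 ≤ Module.finrank K F) : (1 : ℝ) < pOrb K F := by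
  classical
  have h1 := mean_sq_sub K F
  have hpos := card_range_pos K F
  let _ : Fintype (act K F).range := Fintype.ofFinite _
  rw [finsum_eq_sum_of_fintype] at h1
  have h2 : (((Nat.card {y // (1 : (act K F).range).1 y = y} : ℕ) : ℝ) - 1) ^ 2 ≤
      ∑ g : (act K F).range, (((Nat.card {y // g.1 y = y} : ℕ) : ℝ) - 1) ^ 2 :=
    Finset.single_le_sum (f := fun g : (act K F).range =>
      (((Nat.card {y // g.1 y = y} : ℕ) : ℝ) - 1) ^ 2) (fun _ _ => sq_nonneg _)
      (Finset.mem_univ _)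
  have h3 : Nat.card {y // (1 : (act K F).range).1 y = y} = Module.finrank K F := by
    have e1 : Nat.card {y // (1 : (act K F).range).1 y = y} =
        Nat.card (F →ₐ[K] AlgebraicClosure K) :=
      Nat.card_congr (Equiv.subtypeUnivEquiv fun y => rfl)
    rw [e1, Nat.card_eq_fintype_card]
    exact AlgHom.card K F (AlgebraicClosure K)
  rw [h3] at h2
  have h4 : (1 : ℝ) ≤ ((Module.finrank K F : ℝ) - 1) ^ 2 := by
    have : (2 : ℝ) ≤ Module.finrank K F := by exact_mod_cast h
    nlinarith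
  have h5 : 0 < (Nat.card (act K F).range : ℝ)⁻¹ *
      ∑ g : (act K F).range, (((Nat.card {y // g.1 y = y} : ℕ) : ℝ) - 1) ^ 2 :=
    mul_pos (by positivity) (by linarith)
  rw [h1] at h5
  linarith

/-- doubly transitive -/
theorem pOrb_le_two (h : 2 ≤ Module.finrank K F)
    (h2 : ∀ i j i' j' : F →ₐ[K] AlgebraicClosure K, i ≠ j → i' ≠ j' →
      ∃ σ : GK K, act K F σ i = i' ∧ act K F σ j = j') : pOrb K F ≤ 2 := by
  classical
  have h3 : Nat.card (F →ₐ[K] AlgebraicClosure K) = Module.finrank K F := by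
    rw [Nat.card_eq_fintype_card]
    exact AlgHom.card K F (AlgebraicClosure K)
  have h4 : Nontrivial (F →ₐ[K] AlgebraicClosure K) := by
    rw [← Finite.one_lt_card_iff_nontrivial, h3]
    omega
  obtain ⟨i, j, hij⟩ := h4
  have h5 : Function.Surjective (fun b : Bool =>
      (Quot.mk _ (if b then (i, i) else (i, j)) :
        Quot fun p q : (F →ₐ[K] AlgebraicClosure K) × (F →ₐ[K] AlgebraicClosure K) =>
          ∃ σ : GK K, act K F σ p.1 = q.1 ∧ act K F σ p.2 = q.2)) := by
    intro x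
    induction x using Quot.ind with
    | mk p =>
      rcases p with ⟨k, l⟩
      by_cases hkl : k = l
      · subst hkl
        obtain ⟨σ, hσ⟩ := act_trans K F i k
        exact ⟨true, Quot.sound ⟨σ, hσ, hσ⟩⟩
      · obtain ⟨σ, hσ⟩ := h2 i j k l hij hkl
        exact ⟨false, Quot.sound ⟨σ, hσ.1, hσ.2⟩⟩
  have h6 := Nat.card_le_card_of_surjective _ h5
  have h7 : Nat.card Bool = 2 := by simp
  rw [h7] at h6
  exact h6

end

end Pool.Agent.W353.SE
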