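import Pool.Agent.W353.SE.Core
import Pool.Agent.W353.L1.Equi

/-! A strict inequality from the Sato–Tate law, in terms of moments. -/

set_option autoImplicit false

namespace Pool.Agent.W353.SE

open Complex Filter Topology NumberField IsDedekindDomain ComplexConjugate MeasureTheory
  Pool.Agent.W401.Cheb Pool.Agent.W540.BE Pool.Agent.W385.GA
open Pool.Agent.H341R2 (lam lam_tendsto)
open Pool.Agent.W353.L1 (Mf avR)

/-! ### Moments -/

theorem icos (n : ℕ) : ∫ θ in (0 : ℝ)..Real.pi, Real.cos θ ^ (n + 2) =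
    (n + 1) / (n + 2) * ∫ θ in (0 : ℝ)..Real.pi, Real.cos θ ^ n := by
  rw [integral_cos_pow, Real.sin_pi, Real.sin_zero]
  simp

theorem mfcos (n : ℕ) : Mf (fun x => x ^ (n + 2)) = (n + 1) / (n + 2) * Mf fun x => x ^ n := by
  unfold Mf
  have h1 : Real.cos (3 * Real.pi / 2) = 0 := by
    have : 3 * Real.pi / 2 = Real.pi / 2 + Real.pi := by ring
    rw [this, Real.cos_add_pi, Real.cos_pi_div_two, neg_zero]
  have h2 : Real.cos (-(Real.pi / 2)) = 0 := by
    rw [Real.cos_neg, Real.cos_pi_div_two]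
  simp only
  rw [integral_cos_pow, h1, h2]
  simp only [zero_pow (Nat.succ_ne_zero n), zero_mul, sub_zero, zero_div, zero_add]
  ring

theorem mf_zero : Mf (fun x => x ^ 0) = 1 := by
  unfold Mf
  have hpi := Real.pi_pos
  simp only [pow_zero]
  rw [intervalIntegral.integral_const, smul_eq_mul, mul_one]
  field_simp
  ring

theorem mf_even (k : ℕ) : 0 < Mf (fun x => x ^ (2 * k)) ∧
    ∫ θ in (0 : ℝ)..Real.pi, Real.cos θ ^ (2 * k) = Real.pi * Mf fun x => x ^ (2 * k) := by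
  induction k with
  | zero =>
    rw [mul_zero, mf_zero]
    refine ⟨one_pos, ?_⟩
    simp
  | succ k ih =>
    have e : 2 * (k + 1) = 2 * k + 2 := by ring
    rw [e, mfcos, icos, ih.2]
    refine ⟨mul_pos (by positivity) ih.1, by ring⟩

theorem st_even (k : ℕ) : satoTateIntegral (fun t => t ^ (2 * k)) =
    4 ^ k / (k + 1) * Mf fun x => x ^ (2 * k) := by
  unfold satoTateIntegral
  have hpi := Real.pi_pos
  have h1 : ∀ θ : ℝ, (2 * Real.cos θ) ^ (2 * k) * Real.sin θ ^ 2 =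
      4 ^ k * (Real.cos θ ^ (2 * k) - Real.cos θ ^ (2 * k + 2)) := by
    intro θ
    rw [Real.sin_sq, mul_pow, pow_mul (2 : ℝ) 2 k, pow_add]
    norm_num
    ring
  simp only [h1]
  have hi : ∀ n : ℕ, IntervalIntegrable (fun θ : ℝ => Real.cos θ ^ n) volume 0 Real.pi :=
    fun n => (Real.continuous_cos.pow n).intervalIntegrable _ _
  rw [intervalIntegral.integral_const_mul, intervalIntegral.integral_sub (hi _) (hi _), icos,
    (mf_even k).2]
  push_cast
  have h2 : (2 * (k : ℝ) + 2) ≠ 0 := by positivity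
  have h3 : ((k : ℝ) + 1) ≠ 0 := by positivity
  field_simp
  ring

section
variable {K : Type} [Field K] [NumberField K]

/-- a finite-valued function times the cosine of an equidistributed angle does not have the moments
of the Sato–Tate measure -/
theorem exists_moment (U : Subgroup (GK K)) [Finite (GK K ⧸ U)] (y : GK K ⧸ U → ℝ) :
    ∃ k : ℕ, avR U (fun q => (2 * y q) ^ (2 * k)) * Mf (fun x => x ^ (2 * k)) ≠
      satoTateIntegral (fun t => t ^ (2 * k)) := by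
  classical
  by_contra hcon
  push Not at hcon
  let _ : Fintype (GK K ⧸ U) := Fintype.ofFinite _
  have hN : (0 : ℝ) < Nat.card (GK K ⧸ U) := by exact_mod_cast Nat.card_pos
  have h1 : ∀ k : ℕ, (Nat.card (GK K ⧸ U) : ℝ)⁻¹ * ∑ q, ((k : ℝ) + 1) * (y q ^ 2) ^ k = 1 := by
    intro k
    have h2 := hcon k
    rw [st_even] at h2
    have h3 := mul_right_cancel₀ (mf_even k).1.ne' h2
    unfold avR at h3
    rw [finsum_eq_sum_of_fintype] at h3
    have h4 : ∀ q, (2 * y q) ^ (2 * k) = 4 ^ k * (y q ^ 2) ^ k := by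
      intro q
      rw [mul_pow, pow_mul (2 : ℝ) 2 k, pow_mul (y q) 2 k]
      norm_num
    rw [Finset.sum_congr rfl fun q _ => h4 q, ← Finset.mul_sum] at h3
    rw [← Finset.mul_sum]
    have h5 : ((k : ℝ) + 1) ≠ 0 := by positivity
    have h6 : (4 : ℝ) ^ k ≠ 0 := by positivity
    have h7 : (Nat.card (GK K ⧸ U) : ℝ)⁻¹ * ∑ q, (y q ^ 2) ^ k = 1 / (k + 1) := by
      have h8 : (4 : ℝ) ^ k * ((Nat.card (GK K ⧸ U) : ℝ)⁻¹ * ∑ q, (y q ^ 2) ^ k) =
          4 ^ k * (1 / (k + 1)) := by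
        rw [← mul_assoc, mul_comm ((4 : ℝ) ^ k), mul_assoc, h3]
        ring
      exact mul_left_cancel₀ h6 h8
    rw [← mul_assoc, mul_comm (Nat.card (GK K ⧸ U) : ℝ)⁻¹, mul_assoc, h7]
    field_simp
  by_cases hall : ∀ q, y q ^ 2 < 1
  · have h2 : Tendsto (fun k : ℕ => (Nat.card (GK K ⧸ U) : ℝ)⁻¹ *
        ∑ q, ((k : ℝ) + 1) * (y q ^ 2) ^ k) atTop (𝓝 ((Nat.card (GK K ⧸ U) : ℝ)⁻¹ *
        ∑ q : GK K ⧸ U, (0 : ℝ))) := by
      refine (tendsto_finsetSum _ fun q _ => ?_).const_mul _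
      have h3 := tendsto_self_mul_const_pow_of_lt_one (sq_nonneg (y q)) (hall q)
      have h4 := tendsto_pow_atTop_nhds_zero_of_lt_one (sq_nonneg (y q)) (hall q)
      have h5 := h3.add h4
      rw [add_zero] at h5
      refine h5.congr fun k => ?_
      ring
    rw [Finset.sum_const_zero, mul_zero] at h2
    have h3 : Tendsto (fun _ : ℕ => (1 : ℝ)) atTop (𝓝 0) := h2.congr fun k => h1 k
    exact one_ne_zero (tendsto_nhds_unique tendsto_const_nhds h3)
  · push Not at hall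
    obtain ⟨q₀, hq₀⟩ := hall
    obtain ⟨k, hk⟩ := exists_nat_gt (Nat.card (GK K ⧸ U) : ℝ)
    have h2 : ((k : ℝ) + 1) * (y q₀ ^ 2) ^ k ≤ ∑ q, ((k : ℝ) + 1) * (y q ^ 2) ^ k :=
      Finset.single_le_sum (f := fun q => ((k : ℝ) + 1) * (y q ^ 2) ^ k)
        (fun q _ => by positivity) (Finset.mem_univ q₀)
    have h3 : (1 : ℝ) ≤ (y q₀ ^ 2) ^ k := one_le_pow₀ hq₀
    have h4 : ((k : ℝ) + 1) ≤ ((k : ℝ) + 1) * (y q₀ ^ 2) ^ k :=
      le_mul_of_one_le_right (by positivity) h3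
    have h5 := h1 k
    have h6 : (Nat.card (GK K ⧸ U) : ℝ)⁻¹ * (k + 1) ≤ 1 :=
      (mul_le_mul_of_nonneg_left (h4.trans h2) (by positivity)).trans (le_of_eq h5)
    rw [inv_mul_le_iff₀ hN] at h6
    linarith

/-- **The strict inequality, in terms of moments.** -/
theorem strictR {T : HeightOneSpectrum (𝓞 K) → ℝ} (hT : ∀ v, |T v| ≤ 2)
    (hlaw : ∀ f : ℝ → ℝ, Continuous f →
      Tendsto (fun ε : ℝ => (EP (nm K) ε fun v => f (T v)) / lam ε) (𝓝[>] 0)
        (𝓝 (satoTateIntegral f)))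
    {S : HeightOneSpectrum (𝓞 K) → ℝ} {b : ℝ} (hS : ∀ v, |S v| ≤ b)
    (h2 : Tendsto (fun ε : ℝ => (EP (nm K) ε fun v => S v ^ 2) / lam ε) (𝓝[>] 0) (𝓝 1))
    {k : ℕ} {r : ℝ}
    (hr : Tendsto (fun ε : ℝ => (EP (nm K) ε fun v => S v ^ (2 * k)) / lam ε) (𝓝[>] 0) (𝓝 r))
    (hne : r ≠ satoTateIntegral (fun t => t ^ (2 * k))) :
    ∃ c : ℝ, c < 1 ∧ ∀ᶠ ε : ℝ in 𝓝[>] 0,
      |(EP (nm K) ε fun v => T v * S v) / lam ε| ≤ c := by
  have hN : NormSys (nm K) := normSys
  have hb0 : 0 ≤ b := (abs_nonneg _).trans (hS (vx0 K))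
  set a : ℝ := satoTateIntegral (fun t => t ^ (2 * k)) with ha
  set d : ℝ := |a - r| with hd
  have hd0 : 0 < d := abs_pos.2 (sub_ne_zero.2 (Ne.symm hne))
  set M : ℝ := max 2 b with hM
  have hM2 : 2 ≤ M := le_max_left _ _
  have hMb : b ≤ M := le_max_right _ _
  set L : ℝ := (2 * k : ℕ) * M ^ (2 * k - 1) + 1 with hL
  have hL1 : 1 ≤ L := by
    rw [hL]
    have : 0 ≤ ((2 * k : ℕ) : ℝ) * M ^ (2 * k - 1) := by positivity
    linarith
  have hL0 : 0 < L := by linarith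
  set δ : ℝ := d / (2 * L) with hδ
  have hδ0 : 0 < δ := by positivity
  have h1 := hlaw (fun t => t ^ (2 * k)) (continuous_pow _)
  have h3 := hlaw (fun t => t ^ 2) (continuous_pow 2)
  rw [st_one] at h3
  have h4 := EP_one K
  -- pointwise inequality
  have hpt : ∀ σ : ℝ, σ = 1 ∨ σ = -1 → ∀ s : ℝ, s = 1 ∨ s = -1 → ∀ v,
      s * (T v ^ (2 * k) + (-1) * S v ^ (2 * k)) ≤
        L * δ * 1 + L / (4 * δ) * ((T v ^ 2 + S v ^ 2) + (-(2 * σ)) * (T v * S v)) := by
    intro σ hσ s hs v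
    have e1 : (σ * S v) ^ (2 * k) = S v ^ (2 * k) := by
      rw [mul_pow, pow_mul]
      rcases hσ with h | h <;> rw [h] <;> norm_num
    have e2 : σ ^ 2 = 1 := by rcases hσ with h | h <;> rw [h] <;> norm_num
    have e3 : s * (T v ^ (2 * k) + (-1) * S v ^ (2 * k)) ≤ |T v ^ (2 * k) - (σ * S v) ^ (2 * k)| := by
      rw [e1]
      rcases hs with h | h
      · rw [h]
        refine le_trans (le_of_eq ?_) (le_abs_self _)
        ring
      · rw [h]
        refine le_trans (le_of_eq ?_) (neg_le_abs _)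
        ring
    have e4 := abs_pow_sub_pow_le (T v) (σ * S v) (2 * k)
    have e5 : |σ * S v| ≤ M := by
      rw [abs_mul]
      have : |σ| = 1 := by rcases hσ with h | h <;> rw [h] <;> simp
      rw [this, one_mul]
      exact (hS v).trans hMb
    have e6 : max |T v| |σ * S v| ^ (2 * k - 1) ≤ M ^ (2 * k - 1) :=
      pow_le_pow_left₀ (le_max_of_le_left (abs_nonneg _)) (max_le ((hT v).trans hM2) e5) _
    have e7 : |T v - σ * S v| * (2 * k : ℕ) * max |T v| |σ * S v| ^ (2 * k - 1) ≤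
        |T v - σ * S v| * L := by
      rw [mul_assoc]
      refine mul_le_mul_of_nonneg_left ?_ (abs_nonneg _)
      rw [hL]
      have := mul_le_mul_of_nonneg_left e6 (Nat.cast_nonneg (α := ℝ) (2 * k))
      linarith
    have e8 : |T v - σ * S v| ≤ δ + 1 / (4 * δ) * |T v - σ * S v| ^ 2 := by
      have h : 0 ≤ (|T v - σ * S v| - 2 * δ) ^ 2 := sq_nonneg _
      have : δ + 1 / (4 * δ) * |T v - σ * S v| ^ 2 - |T v - σ * S v| =
          1 / (4 * δ) * (|T v - σ * S v| - 2 * δ) ^ 2 := by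
        field_simp
        ring
      have h' : 0 ≤ 1 / (4 * δ) * (|T v - σ * S v| - 2 * δ) ^ 2 := by positivity
      linarith
    have e9 : |T v - σ * S v| ^ 2 = (T v ^ 2 + S v ^ 2) + (-(2 * σ)) * (T v * S v) := by
      rw [sq_abs]
      have : (T v - σ * S v) ^ 2 = T v ^ 2 + σ ^ 2 * S v ^ 2 - 2 * σ * (T v * S v) := by ring
      rw [this, e2]
      ring
    rw [e9] at e8
    have e10 := mul_le_mul_of_nonneg_right e8 hL0.le
    refine (e3.trans (e4.trans (e7.trans e10))).trans (le_of_eq ?_)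
    ring
  -- bounds
  have hT2 : ∀ v, |T v ^ 2| ≤ 2 ^ 2 := fun v => by
    rw [abs_pow]
    exact pow_le_pow_left₀ (abs_nonneg _) (hT v) 2
  have hS2 : ∀ v, |S v ^ 2| ≤ b ^ 2 := fun v => by
    rw [abs_pow]
    exact pow_le_pow_left₀ (abs_nonneg _) (hS v) 2
  have hTn : ∀ v, |T v ^ (2 * k)| ≤ 2 ^ (2 * k) := fun v => by
    rw [abs_pow]
    exact pow_le_pow_left₀ (abs_nonneg _) (hT v) _
  have hSn : ∀ v, |(-1) * S v ^ (2 * k)| ≤ b ^ (2 * k) := fun v => by
    rw [abs_mul, abs_neg, abs_one, one_mul, abs_pow]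
    exact pow_le_pow_left₀ (abs_nonneg _) (hS v) _
  have hTS : ∀ σ : ℝ, ∀ v, |(-(2 * σ)) * (T v * S v)| ≤ |-(2 * σ)| * (2 * b) := fun σ v => by
    rw [abs_mul, abs_mul (T v)]
    exact mul_le_mul_of_nonneg_left (mul_le_mul (hT v) (hS v) (abs_nonneg _) (by norm_num))
      (abs_nonneg _)
  have h12 : ∀ v, |T v ^ 2 + S v ^ 2| ≤ 2 ^ 2 + b ^ 2 := fun v =>
    (abs_add_le _ _).trans (add_le_add (hT2 v) (hS2 v))
  have h13 : ∀ σ : ℝ, ∀ v, |(T v ^ 2 + S v ^ 2) + (-(2 * σ)) * (T v * S v)| ≤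
      (2 ^ 2 + b ^ 2) + |-(2 * σ)| * (2 * b) := fun σ v =>
    (abs_add_le _ _).trans (add_le_add (h12 v) (hTS σ v))
  obtain ⟨s, hs, hsd⟩ : ∃ s : ℝ, (s = 1 ∨ s = -1) ∧ s * (a - r) = d := by
    rcases le_total 0 (a - r) with h | h
    · exact ⟨1, Or.inl rfl, by rw [one_mul, hd, abs_of_nonneg h]⟩
    · exact ⟨-1, Or.inr rfl, by rw [hd, abs_of_nonpos h]; ring⟩
  have key : ∀ σ : ℝ, σ = 1 ∨ σ = -1 → ∀ᶠ ε : ℝ in 𝓝[>] 0,
      σ * ((EP (nm K) ε fun v => T v * S v) / lam ε) ≤ 1 - d ^ 2 / (4 * L ^ 2) := by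
    intro σ hσ
    have hlim : Tendsto (fun ε : ℝ => L * δ * ((EP (nm K) ε fun _ => 1) / lam ε) +
        L / (4 * δ) * ((EP (nm K) ε fun v => T v ^ 2) / lam ε +
          (EP (nm K) ε fun v => S v ^ 2) / lam ε) -
        s * ((EP (nm K) ε fun v => T v ^ (2 * k)) / lam ε -
          (EP (nm K) ε fun v => S v ^ (2 * k)) / lam ε)) (𝓝[>] 0)
        (𝓝 (L * δ * 1 + L / (4 * δ) * (1 + 1) - s * (a - r))) :=
      ((h4.const_mul _).add ((h3.add h2).const_mul _)).sub ((h1.sub hr).const_mul s)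
    have hval : L * δ * 1 + L / (4 * δ) * (1 + 1) - s * (a - r) <
        L / (2 * δ) * (1 - d ^ 2 / (4 * L ^ 2)) := by
      rw [hsd]
      have e1 : L * δ = d / 2 := by
        rw [hδ]
        field_simp
      have e2 : L / (2 * δ) * (d ^ 2 / (4 * L ^ 2)) = d / 4 := by
        rw [hδ]
        field_simp
      have e3 : L / (4 * δ) * (1 + 1) = L / (2 * δ) := by
        field_simp
        norm_num
      rw [mul_sub, mul_one, e2, e3, mul_one, e1]
      linarith
    filter_upwards [hlim.eventually_lt_const hval, self_mem_nhdsWithin,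
      lam_tendsto.eventually_gt_atTop 0] with ε e1 e2 e3
    have hε : (0 : ℝ) < ε := e2
    have e4 : (EP (nm K) ε fun v => s * (T v ^ (2 * k) + (-1) * S v ^ (2 * k))) ≤
        EP (nm K) ε fun v => L * δ * 1 + L / (4 * δ) *
          ((T v ^ 2 + S v ^ 2) + (-(2 * σ)) * (T v * S v)) := by
      refine Pool.Agent.W353.L1.EP_mono (B := |s| * (2 ^ (2 * k) + b ^ (2 * k)))
        (B' := |L * δ * 1| + |L / (4 * δ)| * ((2 ^ 2 + b ^ 2) + |-(2 * σ)| * (2 * b)))
        (fun v => ?_) (fun v => ?_) (hpt σ hσ s hs) hε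
      · rw [abs_mul]
        exact mul_le_mul_of_nonneg_left ((abs_add_le _ _).trans (add_le_add (hTn v) (hSn v)))
          (abs_nonneg _)
      · refine (abs_add_le _ _).trans (add_le_add le_rfl ?_)
        rw [abs_mul]
        exact mul_le_mul_of_nonneg_left (h13 σ v) (abs_nonneg _)
    have hc1 : ∀ v : HeightOneSpectrum (𝓞 K), |L * δ * (1 : ℝ)| ≤ |L * δ * 1| := fun _ => le_rfl
    have hc2 : ∀ v, |L / (4 * δ) * ((T v ^ 2 + S v ^ 2) + (-(2 * σ)) * (T v * S v))| ≤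
        |L / (4 * δ)| * ((2 ^ 2 + b ^ 2) + |-(2 * σ)| * (2 * b)) := fun v => by
      rw [abs_mul]
      exact mul_le_mul_of_nonneg_left (h13 σ v) (abs_nonneg _)
    rw [EP_const_mul, EP_add hN hε hTn hSn, EP_const_mul, EP_add hN hε hc1 hc2,
      EP_const_mul (L * δ), EP_const_mul (L / (4 * δ)), EP_add hN hε h12 (hTS σ),
      EP_add hN hε hT2 hS2, EP_const_mul] at e4
    have e5 := div_le_div_of_nonneg_right e4 e3.le
    have hl := e3.ne'
    have e6 : L / (2 * δ) * (σ * ((EP (nm K) ε fun v => T v * S v) / lam ε)) ≤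
        L * δ * ((EP (nm K) ε fun _ => 1) / lam ε) +
        L / (4 * δ) * ((EP (nm K) ε fun v => T v ^ 2) / lam ε +
          (EP (nm K) ε fun v => S v ^ 2) / lam ε) -
        s * ((EP (nm K) ε fun v => T v ^ (2 * k)) / lam ε -
          (EP (nm K) ε fun v => S v ^ (2 * k)) / lam ε) := by
      have e7 : (L * δ * (EP (nm K) ε fun _ => 1) + L / (4 * δ) *
          ((EP (nm K) ε fun v => T v ^ 2) + (EP (nm K) ε fun v => S v ^ 2) +
            -(2 * σ) * EP (nm K) ε fun v => T v * S v)) / lam ε =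
          L * δ * ((EP (nm K) ε fun _ => 1) / lam ε) +
          L / (4 * δ) * ((EP (nm K) ε fun v => T v ^ 2) / lam ε +
          (EP (nm K) ε fun v => S v ^ 2) / lam ε) -
          L / (2 * δ) * (σ * ((EP (nm K) ε fun v => T v * S v) / lam ε)) := by
        field_simp
        ring
      have e8 : s * ((EP (nm K) ε fun v => T v ^ (2 * k)) +
          -1 * EP (nm K) ε fun v => S v ^ (2 * k)) / lam ε =
          s * ((EP (nm K) ε fun v => T v ^ (2 * k)) / lam ε -
          (EP (nm K) ε fun v => S v ^ (2 * k)) / lam ε) := by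
        field_simp
        ring
      rw [e7, e8] at e5
      linarith
    have e9 := (e6.trans_lt e1).le
    exact le_of_mul_le_mul_left e9 (by positivity)
  refine ⟨1 - d ^ 2 / (4 * L ^ 2), by
    have : 0 < d ^ 2 / (4 * L ^ 2) := by positivity
    linarith, ?_⟩
  filter_upwards [key 1 (Or.inl rfl), key (-1) (Or.inr rfl)] with ε h1 h2
  rw [abs_le]
  constructor <;> linarith

end

end Pool.Agent.W353.SE
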